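import Pool.Agent.HoroS.Rel

/-!
# Counting the horocycles of a set with many points on one horocycle
-/

namespace Pool.Agent.HoroS

open Finset UpperHalfPlane

open Classical in
/-- The horocycles with exactly two points on `H₀`. -/
noncomputable def TT (P : Finset ℍ) (H₀ : Set ℍ) : Finset (Set ℍ) :=
  {H ∈ DD P | H ≠ H₀ ∧ #(on P H ∩ on P H₀) = 2}

open Classical in
/-- The horocycles with at most one point on `H₀`. -/
noncomputable def UU (P : Finset ℍ) (H₀ : Set ℍ) : Finset (Set ℍ) :=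
  {H ∈ DD P | H ≠ H₀ ∧ #(on P H ∩ on P H₀) ≤ 1}

open Classical in
theorem card_DD_eq {P : Finset ℍ} {H₀ : Set ℍ} (h0 : H₀ ∈ DD P) :
    #(DD P) = 1 + #(TT P H₀) + #(UU P H₀) := by
  have h1 : DD P = {H₀} ∪ (TT P H₀ ∪ UU P H₀) := by
    ext H
    unfold TT UU
    rw [mem_union, mem_singleton, mem_union, mem_filter, mem_filter]
    constructor
    · intro h
      by_cases hne : H = H₀
      · exact Or.inl hne
      · right
        have := on_inter_le h h0 hne
        rcases Nat.lt_or_ge (#(on P H ∩ on P H₀)) 2 with h2 | h2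
        · exact Or.inr ⟨h, hne, by omega⟩
        · exact Or.inl ⟨h, hne, by omega⟩
    · rintro (rfl | h | h)
      · exact h0
      · exact h.1
      · exact h.1
  have h2 : Disjoint ({H₀} : Finset (Set ℍ)) (TT P H₀ ∪ UU P H₀) := by
    rw [disjoint_singleton_left]
    unfold TT UU
    rw [mem_union, mem_filter, mem_filter]
    rintro (h | h)
    · exact h.2.1 rfl
    · exact h.2.1 rfl
  have h3 : Disjoint (TT P H₀) (UU P H₀) := by
    rw [disjoint_left]
    unfold TT UU
    intro H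
    rw [mem_filter, mem_filter]
    rintro ⟨-, -, h⟩ ⟨-, -, h'⟩
    omega
  rw [h1, card_union_of_disjoint h2, card_union_of_disjoint h3, card_singleton]
  ring

open Classical in
theorem card_TT {P : Finset ℍ} {H₀ : Set ℍ} (h0 : H₀ ∈ DD P) :
    2 * #(TT P H₀) = #(on P H₀) * (#(on P H₀) - 1) := by
  set A := on P H₀ with hA
  have h1 : ∑ e ∈ A.offDiag, #{H ∈ (DD P).erase H₀ | e.1 ∈ H ∧ e.2 ∈ H} = #A * (#A - 1) := by
    have h2 : ∀ e ∈ A.offDiag, #{H ∈ (DD P).erase H₀ | e.1 ∈ H ∧ e.2 ∈ H} = 1 := by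
      intro e he
      rw [mem_offDiag] at he
      obtain ⟨e1, e2, e3⟩ := he
      rw [hA, mem_on] at e1 e2
      have h3 := card_pair e1.1 e2.1 e3
      have h4 : {H ∈ (DD P).erase H₀ | e.1 ∈ H ∧ e.2 ∈ H} =
          ({H ∈ DD P | e.1 ∈ H ∧ e.2 ∈ H}).erase H₀ := by
        ext H
        rw [mem_filter, mem_erase, mem_erase, mem_filter]
        tauto
      rw [h4, card_erase_of_mem (mem_filter.2 ⟨h0, e1.2, e2.2⟩), h3]
    rw [sum_congr rfl h2, sum_const, offDiag_card, smul_eq_mul, mul_one, Nat.mul_sub, mul_one]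
  have h2 : ∑ e ∈ A.offDiag, #{H ∈ (DD P).erase H₀ | e.1 ∈ H ∧ e.2 ∈ H} =
      ∑ H ∈ (DD P).erase H₀, #{e ∈ A.offDiag | e.1 ∈ H ∧ e.2 ∈ H} := by
    simp only [card_filter]
    rw [sum_comm]
  have h3 : ∀ H ∈ (DD P).erase H₀, #{e ∈ A.offDiag | e.1 ∈ H ∧ e.2 ∈ H} =
      if #(on P H ∩ A) = 2 then 2 else 0 := by
    intro H hH
    rw [mem_erase] at hH
    have h4 : {e ∈ A.offDiag | e.1 ∈ H ∧ e.2 ∈ H} = (on P H ∩ A).offDiag := by
      ext e
      rw [mem_filter, mem_offDiag, mem_offDiag, mem_inter, mem_inter, hA, mem_on, mem_on, mem_on,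
        mem_on]
      tauto
    rw [h4, offDiag_card]
    have h5 := on_inter_le hH.2 h0 hH.1
    rw [← hA] at h5
    interval_cases hc : #(on P H ∩ A) <;> simp
  have h4 : TT P H₀ = {H ∈ (DD P).erase H₀ | #(on P H ∩ A) = 2} := by
    ext H
    unfold TT
    rw [mem_filter, mem_filter, mem_erase, hA]
    tauto
  rw [h2, sum_congr rfl h3, ← sum_filter, sum_const, smul_eq_mul] at h1
  rw [h4]
  linarith

/-- Many points on one horocycle. -/
theorem lower_of_five {P : Finset ℍ} {H₀ : Set ℍ} (h0 : H₀ ∈ DD P) (h5 : 5 ≤ #(on P H₀)) :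
    11 ≤ #(DD P) := by
  have h1 := card_DD_eq h0
  have h2 := card_TT h0
  have h3 : 20 ≤ #(on P H₀) * (#(on P H₀) - 1) := by
    calc 20 = 5 * (5 - 1) := rfl
      _ ≤ _ := Nat.mul_le_mul h5 (by omega)
  omega

open Classical in
/-- The case of no horocycle with four points. -/
theorem count_three {P : Finset ℍ} (h3 : ∀ H ∈ DD P, #(on P H) ≤ 3) :
    ∃ T : ℕ, #(DD P) + 2 * T = #P * (#P - 1) ∧ 3 * T ≤ #P * (#P - 1) ∧
      (T = #(DD P) → ∀ H ∈ DD P, #(on P H) = 3) := by
  set D3 : Finset (Set ℍ) := {H ∈ DD P | #(on P H) = 3} with hD3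
  refine ⟨#D3, ?_, ?_, ?_⟩
  · have h1 : ∑ p ∈ P, ∑ H ∈ DD P with p ∈ H, (#(on P H) - 1) = #P * (2 * (#P - 1)) := by
      rw [sum_congr rfl fun p hp => sum_at hp, sum_const, smul_eq_mul]
    have h2 : ∑ p ∈ P, ∑ H ∈ DD P with p ∈ H, (#(on P H) - 1) =
        ∑ H ∈ DD P, #(on P H) * (#(on P H) - 1) := by
      simp only [sum_filter]
      rw [sum_comm]
      refine sum_congr rfl fun H _ => ?_
      rw [← sum_filter, sum_const, smul_eq_mul]
      unfold on
      rfl
    have h4 : ∑ H ∈ DD P, #(on P H) * (#(on P H) - 1) = ∑ H ∈ DD P, (2 + 4 * if #(on P H) = 3 then 1 else 0) := by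
      refine sum_congr rfl fun H hH => ?_
      have h5 := h3 H hH
      have h6 := two_le_on hH
      interval_cases hc : #(on P H) <;> simp
    rw [sum_add_distrib, sum_const, smul_eq_mul, ← mul_sum, ← card_filter, ← hD3] at h4
    rw [h2, h4] at h1
    have : #P * (2 * (#P - 1)) = 2 * (#P * (#P - 1)) := by ring
    omega
  · have h1 : ∑ p ∈ P, #{H ∈ D3 | p ∈ H} = 3 * #D3 := by
      simp only [card_filter]
      rw [sum_comm]
      have : ∀ H ∈ D3, (∑ p ∈ P, if p ∈ H then 1 else 0) = 3 := by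
        intro H hH
        rw [← card_filter]
        rw [hD3, mem_filter] at hH
        rw [← hH.2]
        unfold on
        rfl
      rw [sum_congr rfl this, sum_const, smul_eq_mul]
      ring
    have h2 : ∀ p ∈ P, #{H ∈ D3 | p ∈ H} ≤ #P - 1 := by
      intro p hp
      have h4 := sum_at hp
      have h5 : 2 * #{H ∈ D3 | p ∈ H} ≤ ∑ H ∈ DD P with p ∈ H, (#(on P H) - 1) := by
        calc 2 * #{H ∈ D3 | p ∈ H} = ∑ H ∈ D3 with p ∈ H, (#(on P H) - 1) := by
              have : ∀ H ∈ D3.filter (fun H => p ∈ H), #(on P H) - 1 = 2 := by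
                intro H hH
                rw [mem_filter, hD3, mem_filter] at hH
                rw [hH.1.2]
              rw [sum_congr rfl this, sum_const, smul_eq_mul]
              ring
          _ ≤ _ := by
              apply sum_le_sum_of_subset
              intro H hH
              rw [mem_filter, hD3, mem_filter] at hH
              rw [mem_filter]
              exact ⟨hH.1.1, hH.2⟩
      omega
    rw [← h1]
    calc ∑ p ∈ P, #{H ∈ D3 | p ∈ H} ≤ ∑ p ∈ P, (#P - 1) := sum_le_sum h2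
      _ = _ := by rw [sum_const, smul_eq_mul]
  · intro hT H hH
    have : D3 = DD P := eq_of_subset_of_card_le (filter_subset _ _) hT.ge
    rw [← this, hD3, mem_filter] at hH
    exact hH.2

end Pool.Agent.HoroS
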