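import Mathlib

/-!
# Horocycles determined by few points: definitions and first facts
-/

namespace Pool.Agent.HoroS

open Finset UpperHalfPlane

/-- The horocycle of the upper half-plane centred at the real point `x`, of euclidean radius `r`:
the euclidean circle of radius `r` tangent to the real line at `x`. -/
def circ (x r : ℝ) : Set ℍ := {z | (z.re - x) ^ 2 + (z.im - r) ^ 2 = r ^ 2}

/-- The horocycle centred at infinity at height `c`. -/
def hline (c : ℝ) : Set ℍ := {z | z.im = c}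

/-- The horocycles of the hyperbolic plane, in the upper half-plane model. -/
def IsHorocycle (H : Set ℍ) : Prop :=
  (∃ c : ℝ, 0 < c ∧ H = hline c) ∨ (∃ x r : ℝ, 0 < r ∧ H = circ x r)

/-- The horocycles containing at least two points of `P`. -/
def determined (P : Finset ℍ) : Set (Set ℍ) :=
  {H | IsHorocycle H ∧ ∃ p ∈ P, ∃ q ∈ P, p ≠ q ∧ p ∈ H ∧ q ∈ H}

/-- The number of horocycles determined by `P`. -/
noncomputable def h (P : Finset ℍ) : ℕ := (determined P).ncard

/-- The minimum of `h P` over the sets `P` of `n` points. -/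
noncomputable def m (n : ℕ) : ℕ := sInf {k | ∃ P : Finset ℍ, #P = n ∧ h P = k}

theorem mem_circ {z : ℍ} {x r : ℝ} :
    z ∈ circ x r ↔ (z.re - x) ^ 2 + z.im ^ 2 = 2 * r * z.im := by
  unfold circ
  rw [Set.mem_ofPred_eq]
  constructor <;> intro h <;> linarith [h]

theorem mem_hline {z : ℍ} {c : ℝ} : z ∈ hline c ↔ z.im = c := Iff.rfl

/-- The point `(x, y)`. -/
noncomputable def pt (x y : ℝ) (hy : 0 < y) : ℍ := ⟨⟨x, y⟩, by simpa using hy⟩

@[simp] theorem pt_re (x y : ℝ) (hy : 0 < y) : (pt x y hy).re = x := rfl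
@[simp] theorem pt_im (x y : ℝ) (hy : 0 < y) : (pt x y hy).im = y := rfl

theorem ext' {p q : ℍ} (h1 : p.re = q.re) (h2 : p.im = q.im) : p = q :=
  UpperHalfPlane.ext (Complex.ext h1 h2)

theorem circ_inj {x r x' r' : ℝ} (hr : 0 < r) (hr' : 0 < r') (h : circ x r = circ x' r') :
    x = x' ∧ r = r' := by
  have h1 : pt x (2 * r) (by linarith) ∈ circ x' r' := by
    rw [← h, mem_circ]
    simp only [pt_re, pt_im]
    ring
  have h2 : pt x' (2 * r') (by linarith) ∈ circ x r := by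
    rw [h, mem_circ]
    simp only [pt_re, pt_im]
    ring
  rw [mem_circ] at h1 h2
  simp only [pt_re, pt_im] at h1 h2
  have h3 : (r - r') * (r + r') = 0 := by linear_combination (1 / 4) * h1 - (1 / 4) * h2
  have h4 : r = r' := by
    rcases mul_eq_zero.1 h3 with h | h <;> linarith
  subst h4
  refine ⟨?_, rfl⟩
  have h5 : (x - x') ^ 2 = 0 := by linear_combination h1
  exact sub_eq_zero.1 (pow_eq_zero_iff (two_ne_zero) |>.1 h5)

theorem hline_ne_circ {c x r : ℝ} (hc : 0 < c) (hr : 0 < r) : hline c ≠ circ x r := by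
  intro h
  have h1 : pt (x + (2 * r + 1)) c hc ∈ circ x r := by
    rw [← h, mem_hline]
    rfl
  rw [mem_circ] at h1
  simp only [pt_re, pt_im] at h1
  nlinarith [sq_nonneg (c - r), sq_nonneg r]

theorem hline_inj {c c' : ℝ} (hc : 0 < c) (h : hline c = hline c') : c = c' := by
  have h1 : pt 0 c hc ∈ hline c' := by
    rw [← h, mem_hline]
    rfl
  rw [mem_hline] at h1
  exact h1

/-- The quadratic form of a point. -/
noncomputable def Q (z : ℍ) (X Y : ℝ) : ℝ := ((X - Y * z.re) ^ 2 + (Y * z.im) ^ 2) / z.im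

/-- The horocycle of a vector. -/
def hor (X Y : ℝ) : Set ℍ := {z | Q z X Y = 1}

theorem mem_hor {z : ℍ} {X Y : ℝ} : z ∈ hor X Y ↔ (X - Y * z.re) ^ 2 + (Y * z.im) ^ 2 = z.im := by
  unfold hor Q
  rw [Set.mem_ofPred_eq, div_eq_one_iff_eq z.im_pos.ne']

theorem hor_zero {X : ℝ} : hor X 0 = hline (X ^ 2) := by
  ext z
  rw [mem_hor, mem_hline]
  constructor <;> intro h <;> linarith

theorem hor_circ {X Y : ℝ} (hY : Y ≠ 0) : hor X Y = circ (X / Y) (1 / (2 * Y ^ 2)) := by
  ext z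
  rw [mem_hor, mem_circ]
  have e1 : (z.re - X / Y) ^ 2 + z.im ^ 2 - 2 * (1 / (2 * Y ^ 2)) * z.im =
      ((X - Y * z.re) ^ 2 + (Y * z.im) ^ 2 - z.im) / Y ^ 2 := by
    field_simp
    ring
  have hY2 : Y ^ 2 ≠ 0 := pow_ne_zero _ hY
  constructor
  · intro h
    have : ((X - Y * z.re) ^ 2 + (Y * z.im) ^ 2 - z.im) / Y ^ 2 = 0 := by
      rw [h, sub_self, zero_div]
    linarith
  · intro h
    rw [h, sub_self] at e1
    have := (div_eq_zero_iff.1 e1.symm).resolve_right hY2
    linarith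

theorem isHoro_iff {H : Set ℍ} : IsHorocycle H ↔ ∃ X Y : ℝ, (X ≠ 0 ∨ Y ≠ 0) ∧ H = hor X Y := by
  constructor
  · rintro (⟨c, hc, rfl⟩ | ⟨x, r, hr, rfl⟩)
    · refine ⟨√c, 0, Or.inl (Real.sqrt_pos.2 hc).ne', ?_⟩
      rw [hor_zero, Real.sq_sqrt hc.le]
    · have h0 : 0 < √(1 / (2 * r)) := Real.sqrt_pos.2 (by positivity)
      refine ⟨x * √(1 / (2 * r)), √(1 / (2 * r)), Or.inr h0.ne', ?_⟩
      rw [hor_circ h0.ne', mul_div_cancel_right₀ _ h0.ne', Real.sq_sqrt (by positivity)]
      congr 1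
      field_simp
  · rintro ⟨X, Y, h0, rfl⟩
    by_cases hY : Y = 0
    · subst hY
      left
      refine ⟨X ^ 2, ?_, hor_zero⟩
      have : X ≠ 0 := by
        rcases h0 with h | h
        · exact h
        · exact absurd rfl h
      positivity
    · right
      exact ⟨X / Y, 1 / (2 * Y ^ 2), by positivity, hor_circ hY⟩

/-- The polar form of a point. -/
noncomputable def B (z : ℍ) (X Y X' Y' : ℝ) : ℝ :=
  ((X - Y * z.re) * (X' - Y' * z.re) + Y * Y' * z.im ^ 2) / z.im

theorem Q_mul (z : ℍ) (X Y X' Y' : ℝ) :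
    Q z X Y * Q z X' Y' - B z X Y X' Y' ^ 2 = (X * Y' - X' * Y) ^ 2 := by
  have := z.im_pos.ne'
  unfold Q B
  field_simp
  ring

/-- The form at a combination of two vectors. -/
theorem Q_comb (z : ℍ) (X Y X' Y' s t : ℝ) :
    Q z (s * X + t * X') (s * Y + t * Y') =
      s ^ 2 * Q z X Y + 2 * s * t * B z X Y X' Y' + t ^ 2 * Q z X' Y' := by
  have := z.im_pos.ne'
  unfold Q B
  field_simp
  ring

theorem Q_eq {p q : ℍ} (h : ∀ X Y : ℝ, Q p X Y = Q q X Y) : p = q := by
  have h1 := h 1 0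
  have h2 := h 0 1
  have h3 := h 1 1
  have hp := p.im_pos
  have hq := q.im_pos
  unfold Q at h1 h2 h3
  have e1 : p.im = q.im := by
    field_simp at h1
    linarith
  rw [← e1] at h2 h3
  have e2 : p.re = q.re := by
    rw [div_left_inj' hp.ne'] at h2 h3
    nlinarith
  exact ext' e2 e1

theorem eq_of_QB {p q : ℍ} {X Y X' Y' : ℝ} (hD : X * Y' - X' * Y ≠ 0) (h1 : Q p X Y = Q q X Y)
    (h2 : Q p X' Y' = Q q X' Y') (h3 : B p X Y X' Y' = B q X Y X' Y') : p = q := by
  apply Q_eq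
  intro U V
  have e : ∀ z : ℍ, Q z U V = Q z (((U * Y' - X' * V) / (X * Y' - X' * Y)) * X +
      ((X * V - U * Y) / (X * Y' - X' * Y)) * X') (((U * Y' - X' * V) / (X * Y' - X' * Y)) * Y +
      ((X * V - U * Y) / (X * Y' - X' * Y)) * Y') := by
    intro z
    congr 1
    · rw [div_mul_eq_mul_div, div_mul_eq_mul_div, ← add_div, eq_div_iff hD]
      ring
    · rw [div_mul_eq_mul_div, div_mul_eq_mul_div, ← add_div, eq_div_iff hD]
      ring
  rw [e p, e q, Q_comb, Q_comb, h1, h2, h3]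

/-- Three distinct points are on at most one horocycle. -/
theorem hor_unique {H H' : Set ℍ} (hH : IsHorocycle H) (hH' : IsHorocycle H') {p q r : ℍ}
    (hpq : p ≠ q) (hpr : p ≠ r) (hqr : q ≠ r) (h1 : p ∈ H) (h2 : q ∈ H) (h3 : r ∈ H)
    (h1' : p ∈ H') (h2' : q ∈ H') (h3' : r ∈ H') : H = H' := by
  rw [isHoro_iff] at hH hH'
  obtain ⟨X, Y, h0, rfl⟩ := hH
  obtain ⟨X', Y', h0', rfl⟩ := hH'
  by_cases hD : X * Y' - X' * Y = 0
  · have hk : ∃ k : ℝ, X' = k * X ∧ Y' = k * Y := by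
      rcases h0 with h | h
      · refine ⟨X' / X, by field_simp, ?_⟩
        field_simp
        linarith
      · refine ⟨Y' / Y, ?_, by field_simp⟩
        field_simp
        linarith
    obtain ⟨k, rfl, rfl⟩ := hk
    rw [mem_hor] at h1 h1'
    have hk2 : k ^ 2 = 1 := by
      have e : k ^ 2 * p.im = p.im := by
        calc k ^ 2 * p.im = k ^ 2 * ((X - Y * p.re) ^ 2 + (Y * p.im) ^ 2) := by rw [h1]
          _ = (k * X - k * Y * p.re) ^ 2 + (k * Y * p.im) ^ 2 := by ring
          _ = _ := h1'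
      have := p.im_pos.ne'
      exact mul_right_cancel₀ this (by linarith)
    ext z
    rw [mem_hor, mem_hor]
    have e : (k * X - k * Y * z.re) ^ 2 + (k * Y * z.im) ^ 2 =
        k ^ 2 * ((X - Y * z.re) ^ 2 + (Y * z.im) ^ 2) := by ring
    rw [e, hk2, one_mul]
  · exfalso
    have hb : ∀ z : ℍ, z ∈ hor X Y → z ∈ hor X' Y' →
        B z X Y X' Y' ^ 2 = 1 - (X * Y' - X' * Y) ^ 2 := by
      intro z hz hz'
      have e1 : Q z X Y = 1 := hz
      have e2 : Q z X' Y' = 1 := hz'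
      have := Q_mul z X Y X' Y'
      rw [e1, e2] at this
      linarith
    have hs : ∀ z w : ℍ, z ∈ hor X Y → z ∈ hor X' Y' → w ∈ hor X Y → w ∈ hor X' Y' → z ≠ w →
        B z X Y X' Y' = - B w X Y X' Y' := by
      intro z w hz hz' hw hw' hne
      have e1 := hb z hz hz'
      have e2 := hb w hw hw'
      have e3 : (B z X Y X' Y' - B w X Y X' Y') * (B z X Y X' Y' + B w X Y X' Y') = 0 := by
        linear_combination e1 - e2
      rcases mul_eq_zero.1 e3 with h | h
      · exfalso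
        apply hne
        refine eq_of_QB hD ?_ ?_ (sub_eq_zero.1 h)
        · exact (show Q z X Y = 1 from hz).trans (show Q w X Y = 1 from hw).symm
        · exact (show Q z X' Y' = 1 from hz').trans (show Q w X' Y' = 1 from hw').symm
      · linarith
    have e1 := hs p q h1 h1' h2 h2' hpq
    have e2 := hs p r h1 h1' h3 h3' hpr
    have e3 := hs q r h2 h2' h3 h3' hqr
    apply hqr
    refine eq_of_QB hD ?_ ?_ (by linarith)
    · exact (show Q q X Y = 1 from h2).trans (show Q r X Y = 1 from h3).symm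
    · exact (show Q q X' Y' = 1 from h2').trans (show Q r X' Y' = 1 from h3').symm

end Pool.Agent.HoroS
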