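import Pool.Agent.HoroS.Line

/-!
# The final case: two paths with a common end
-/

namespace Pool.Agent.HoroS

open Finset UpperHalfPlane

theorem three_through {p q : ℍ} (hpq : p ≠ q) {H₁ H₂ H₃ : Set ℍ} (h1 : IsHorocycle H₁)
    (h2 : IsHorocycle H₂) (h3 : IsHorocycle H₃) (p1 : p ∈ H₁) (q1 : q ∈ H₁) (p2 : p ∈ H₂)
    (q2 : q ∈ H₂) (p3 : p ∈ H₃) (q3 : q ∈ H₃) (h12 : H₁ ≠ H₂) (h13 : H₁ ≠ H₃) (h23 : H₂ ≠ H₃) :
    False := by
  obtain ⟨G₁, G₂, -, hG⟩ := two_through hpq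
  have e1 : H₁ ∈ ({G₁, G₂} : Set (Set ℍ)) := by rw [← hG]; exact ⟨h1, p1, q1⟩
  have e2 : H₂ ∈ ({G₁, G₂} : Set (Set ℍ)) := by rw [← hG]; exact ⟨h2, p2, q2⟩
  have e3 : H₃ ∈ ({G₁, G₂} : Set (Set ℍ)) := by rw [← hG]; exact ⟨h3, p3, q3⟩
  simp only [Set.mem_insert_iff, Set.mem_singleton_iff] at e1 e2 e3
  rcases e1 with rfl | rfl <;> rcases e2 with rfl | rfl <;> rcases e3 with rfl | rfl <;>
    simp_all

theorem mem_hor2 {x y s : ℝ} : pt x 1 one_pos ∈ hor2 y s ↔ (x - y) * (x - s) = 0 := by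
  unfold hor2
  rw [mem_circ]
  simp only [pt_re, pt_im]
  constructor <;> intro h <;> linarith

theorem hor2_ne_hor2 {a s b c : ℝ} (h1 : b ≠ a) (h2 : b ≠ s) : hor2 b c ≠ hor2 a s := by
  intro h
  have h3 : pt b 1 one_pos ∈ hor2 b c := mem_hor2.2 (by ring)
  rw [h, mem_hor2] at h3
  rcases mul_eq_zero.1 h3 with h | h
  · exact h1 (sub_eq_zero.1 h)
  · exact h2 (sub_eq_zero.1 h)

/-- There is a path from `a` through the three other points. -/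
def AnyPath (q : ℍ) (a b c d : ℝ) : Prop :=
  (Rel q a b ∧ Rel q b c ∧ Rel q c d) ∨ (Rel q a b ∧ Rel q b d ∧ Rel q d c) ∨
  (Rel q a c ∧ Rel q c b ∧ Rel q b d) ∨ (Rel q a c ∧ Rel q c d ∧ Rel q d b) ∨
  (Rel q a d ∧ Rel q d b ∧ Rel q b c) ∨ (Rel q a d ∧ Rel q d c ∧ Rel q c b)

theorem AnyPath.sw1 {q : ℍ} {a b c d : ℝ} (h : AnyPath q a b c d) : AnyPath q a c b d := by
  rcases h with h | h | h | h | h | h
  · exact Or.inr (Or.inr (Or.inl h))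
  · exact Or.inr (Or.inr (Or.inr (Or.inl h)))
  · exact Or.inl h
  · exact Or.inr (Or.inl h)
  · exact Or.inr (Or.inr (Or.inr (Or.inr (Or.inr h))))
  · exact Or.inr (Or.inr (Or.inr (Or.inr (Or.inl h))))

theorem AnyPath.sw2 {q : ℍ} {a b c d : ℝ} (h : AnyPath q a b c d) : AnyPath q a b d c := by
  rcases h with h | h | h | h | h | h
  · exact Or.inr (Or.inl h)
  · exact Or.inl h
  · exact Or.inr (Or.inr (Or.inr (Or.inr (Or.inl h))))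
  · exact Or.inr (Or.inr (Or.inr (Or.inr (Or.inr h))))
  · exact Or.inr (Or.inr (Or.inl h))
  · exact Or.inr (Or.inr (Or.inr (Or.inl h)))

theorem final_path {p q : ℍ} (hpq : p ≠ q) (hp : p.im ≠ 1) (hq : q.im ≠ 1) {a b c d s : ℝ}
    (hab : a ≠ b) (hac : a ≠ c) (had : a ≠ d) (hbc : b ≠ c) (hbd : b ≠ d) (hcd : c ≠ d)
    (hsb : s ≠ b) (hsc : s ≠ c) (hsd : s ≠ d) (p4 : Rel p a s) (q4 : Rel q a s)
    (p1 : Rel p a b) (p2 : Rel p b c) (p3 : Rel p c d) (hQ : AnyPath q a b c d) : False := by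
  have i : ∀ {x y : ℝ}, Rel p x y → p ∈ hor2 x y := fun h => (rel_iff hp).2 h
  have j : ∀ {x y : ℝ}, Rel q x y → q ∈ hor2 x y := fun h => (rel_iff hq).2 h
  rcases hQ with ⟨q1, q2, q3⟩ | ⟨q1, q2, q3⟩ | ⟨q1, q2, q3⟩ | ⟨q1, q2, q3⟩ | ⟨q1, q2, q3⟩ |
    ⟨q1, q2, q3⟩
  · refine three_through hpq (hor2_horo b a) (hor2_horo b c) (hor2_horo a s) (i p1.symm)
      (j q1.symm) (i p2) (j q2) (i p4) (j q4) (fun h => hac (hor2_inj h)) ?_ ?_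
    · exact hor2_ne_hor2 hab.symm hsb.symm
    · exact hor2_ne_hor2 hab.symm hsb.symm
  · refine three_through hpq (hor2_horo b a) (hor2_horo c d) (hor2_horo a s) (i p1.symm)
      (j q1.symm) (i p3) (j q3.symm) (i p4) (j q4) ?_ ?_ ?_
    · exact hor2_ne_hor2 hbc hbd
    · exact hor2_ne_hor2 hab.symm hsb.symm
    · exact hor2_ne_hor2 hac.symm hsc.symm
  · exact type1 hp hab hac hbc hbd hcd hsb hsc p1 p2 p3 p4 q4 q1 q2 q3
  · exact type2 hp hq hac had hbc hbd hsb hsc p1 p2 p3 p4 q4 q1 q2 q3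
  · exact type3 hp hab hac hbd hcd hsb hsd p1 p2 p3 p4 q4 q1 q2 q3
  · refine three_through hpq (hor2_horo c d) (hor2_horo c b) (hor2_horo a s) (i p3)
      (j q2.symm) (i p2.symm) (j q3) (i p4) (j q4) (fun h => hbd.symm (hor2_inj h)) ?_ ?_
    · exact hor2_ne_hor2 hac.symm hsc.symm
    · exact hor2_ne_hor2 hac.symm hsc.symm

theorem final_case {p q : ℍ} (hpq : p ≠ q) (hp : p.im ≠ 1) (hq : q.im ≠ 1) {a b c d s : ℝ}
    (hab : a ≠ b) (hac : a ≠ c) (had : a ≠ d) (hbc : b ≠ c) (hbd : b ≠ d) (hcd : c ≠ d)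
    (hsb : s ≠ b) (hsc : s ≠ c) (hsd : s ≠ d) (p4 : Rel p a s) (q4 : Rel q a s)
    (hP : AnyPath p a b c d) (hQ : AnyPath q a b c d) : False := by
  rcases hP with ⟨p1, p2, p3⟩ | ⟨p1, p2, p3⟩ | ⟨p1, p2, p3⟩ | ⟨p1, p2, p3⟩ | ⟨p1, p2, p3⟩ |
    ⟨p1, p2, p3⟩
  · exact final_path hpq hp hq hab hac had hbc hbd hcd hsb hsc hsd p4 q4 p1 p2 p3 hQ
  · exact final_path hpq hp hq hab had hac hbd hbc hcd.symm hsb hsd hsc p4 q4 p1 p2 p3
      hQ.sw2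
  · exact final_path hpq hp hq hac hab had hbc.symm hcd hbd hsc hsb hsd p4 q4 p1 p2 p3
      hQ.sw1
  · exact final_path hpq hp hq hac had hab hcd hbc.symm hbd.symm hsc hsd hsb p4 q4 p1 p2 p3
      hQ.sw1.sw2
  · exact final_path hpq hp hq had hab hac hbd.symm hcd.symm hbc hsd hsb hsc p4 q4 p1 p2 p3
      hQ.sw2.sw1
  · exact final_path hpq hp hq had hac hab hcd.symm hbd.symm hbc.symm hsd hsc hsb p4 q4 p1 p2 p3
      hQ.sw1.sw2.sw1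

end Pool.Agent.HoroS
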