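import Pool.Agent.HoroS.Cnt

/-!
# Sets with exactly four points on the horocycle of height one
-/

namespace Pool.Agent.HoroS

open Finset UpperHalfPlane

/-- The horocycle of height one. -/
abbrev L1 : Set ℍ := hline 1

theorem mem_L {P : Finset ℍ} {z : ℍ} : z ∈ on P L1 ↔ z ∈ P ∧ z.im = 1 := mem_on

theorem mem_hor2_left {z : ℍ} (hz : z.im = 1) (y : ℝ) : z ∈ hor2 z.re y := by
  unfold hor2
  rw [mem_circ, hz]
  ring

theorem mem_hor2_right {z : ℍ} (hz : z.im = 1) (y : ℝ) : z ∈ hor2 y z.re := by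
  rw [hor2_comm]
  exact mem_hor2_left hz y

theorem hor2_horo (x y : ℝ) : IsHorocycle (hor2 x y) := Or.inr ⟨_, _, by positivity, rfl⟩

theorem hor2_ne (x y : ℝ) : hor2 x y ≠ L1 :=
  (hline_ne_circ (by norm_num) (by positivity)).symm

theorem re_ne {x y : ℍ} (hx : x.im = 1) (hy : y.im = 1) (hxy : x ≠ y) : x.re ≠ y.re :=
  fun h => hxy (ext' h (hx.trans hy.symm))

theorem eq_hor2 {H : Set ℍ} (hH : IsHorocycle H) (hne : H ≠ L1) {x y : ℍ} (hx : x.im = 1)
    (hy : y.im = 1) (hxy : x ≠ y) (h1 : x ∈ H) (h2 : y ∈ H) : H = hor2 x.re y.re := by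
  rcases hH with ⟨c, hc, rfl⟩ | ⟨u, r, hr, rfl⟩
  · exfalso
    rw [mem_hline, hx] at h1
    exact hne (by rw [← h1])
  · rw [mem_circ, hx] at h1
    rw [mem_circ, hy] at h2
    have h3 := re_ne hx hy hxy
    have h4 : (x.re - y.re) * (x.re + y.re - 2 * u) = 0 := by linear_combination h1 - h2
    have h5 := (mul_eq_zero.1 h4).resolve_left (sub_ne_zero.2 h3)
    have h6 : u = (x.re + y.re) / 2 := by linarith
    subst h6
    unfold hor2
    congr 1
    linear_combination -(1 / 2) * h1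

open Classical in
/-- The neighbours of `x` and the horocycles with one point on the line. -/
theorem deg_add {P : Finset ℍ} {p x : ℍ} (hp : p ∈ P) (hp1 : p.im ≠ 1)
    (hx : x ∈ on P L1) :
    #{y ∈ on P L1 | y ≠ x ∧ Rel p x.re y.re} + #{H ∈ UU P L1 | p ∈ H ∧ x ∈ H} = 2 := by
  obtain ⟨hxP, hx1⟩ := mem_L.1 hx
  have hpx : p ≠ x := fun h => hp1 (by rw [h]; exact hx1)
  have h1 := card_pair hp hxP hpx
  have h2 : {H ∈ DD P | p ∈ H ∧ x ∈ H} =
      ({y ∈ on P L1 | y ≠ x ∧ Rel p x.re y.re}).image (fun y => hor2 x.re y.re) ∪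
        {H ∈ UU P L1 | p ∈ H ∧ x ∈ H} := by
    ext H
    rw [mem_union, mem_image, mem_filter, mem_filter]
    constructor
    · rintro ⟨hH, h3, h4⟩
      have hne : H ≠ L1 := fun h => hp1 (by rw [h] at h3; exact h3)
      by_cases h5 : #(on P H ∩ on P L1) ≤ 1
      · right
        unfold UU
        rw [mem_filter]
        exact ⟨⟨hH, hne, h5⟩, h3, h4⟩
      · left
        rw [not_le, one_lt_card] at h5
        obtain ⟨y, hy, z, hz, hyz⟩ := h5
        have h6 : ∃ w ∈ on P H ∩ on P L1, w ≠ x := by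
          by_cases hyx : y = x
          · exact ⟨z, hz, fun h => hyz (hyx.trans h.symm)⟩
          · exact ⟨y, hy, hyx⟩
        obtain ⟨w, hw, hwx⟩ := h6
        rw [mem_inter] at hw
        obtain ⟨hwP, hw1⟩ := mem_L.1 hw.2
        have h7 := eq_hor2 (mem_DD.1 hH).1 hne hx1 hw1 (Ne.symm hwx) h4 (mem_on.1 hw.1).2
        refine ⟨w, mem_filter.2 ⟨hw.2, hwx, ?_⟩, h7.symm⟩
        rw [← rel_iff hp1, ← h7]
        exact h3
    · rintro (⟨y, hy, rfl⟩ | ⟨h3, h4⟩)
      · rw [mem_filter] at hy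
        obtain ⟨hy, hyx, hr⟩ := hy
        obtain ⟨hyP, hy1⟩ := mem_L.1 hy
        have h3 : x ∈ hor2 x.re y.re := mem_hor2_left hx1 _
        have h4 : y ∈ hor2 x.re y.re := mem_hor2_right hy1 _
        exact ⟨mem_DD.2 ⟨hor2_horo _ _, x, hxP, y, hyP, Ne.symm hyx, h3, h4⟩,
          (rel_iff hp1).2 hr, h3⟩
      · unfold UU at h3
        rw [mem_filter] at h3
        exact ⟨h3.1, h4⟩
  have h3 : Disjoint (({y ∈ on P L1 | y ≠ x ∧ Rel p x.re y.re}).image (fun y => hor2 x.re y.re))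
      {H ∈ UU P L1 | p ∈ H ∧ x ∈ H} := by
    rw [disjoint_left]
    intro H h3 h4
    rw [mem_image] at h3
    obtain ⟨y, hy, rfl⟩ := h3
    rw [mem_filter] at hy h4
    obtain ⟨hy, hyx, hr⟩ := hy
    obtain ⟨hyP, hy1⟩ := mem_L.1 hy
    unfold UU at h4
    rw [mem_filter] at h4
    have h5 : ({x, y} : Finset ℍ) ⊆ on P (hor2 x.re y.re) ∩ on P L1 := by
      intro z hz
      rw [mem_insert, mem_singleton] at hz
      rw [mem_inter]
      rcases hz with rfl | rfl
      · exact ⟨mem_on.2 ⟨hxP, mem_hor2_left hx1 _⟩, hx⟩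
      · exact ⟨mem_on.2 ⟨hyP, mem_hor2_right hy1 _⟩, hy⟩
    have h6 := card_le_card h5
    rw [Finset.card_pair (Ne.symm hyx)] at h6
    have := h4.1.2.2
    omega
  rw [h2, card_union_of_disjoint h3, card_image_of_injOn] at h1
  · exact h1
  · intro y hy z hz hyz
    rw [mem_coe, mem_filter] at hy hz
    exact ext' (hor2_inj hyz) ((mem_L.1 hy.1).2.trans (mem_L.1 hz.1).2.symm)

open Classical in
/-- The horocycles through `p` with exactly one point on the line. -/
noncomputable def SS (P : Finset ℍ) (p : ℍ) : Finset (Set ℍ) :=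
  {H ∈ UU P L1 | p ∈ H ∧ #(on P H ∩ on P L1) = 1}

open Classical in
theorem sum_SS (P : Finset ℍ) (p : ℍ) :
    ∑ x ∈ on P L1, #{H ∈ UU P L1 | p ∈ H ∧ x ∈ H} = #(SS P p) := by
  simp only [card_filter]
  rw [sum_comm]
  unfold SS
  rw [card_filter]
  refine sum_congr rfl fun H hH => ?_
  unfold UU at hH
  rw [mem_filter] at hH
  by_cases hp : p ∈ H
  · simp only [hp, true_and]
    have h1 : (∑ x ∈ on P L1, if x ∈ H then 1 else 0) = #(on P H ∩ on P L1) := by
      rw [← card_filter]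
      congr 1
      ext z
      rw [mem_filter, mem_inter, mem_on, mem_on]
      tauto
    rw [h1]
    have := hH.2.2
    interval_cases hc : #(on P H ∩ on P L1) <;> simp
  · simp [hp]

/-- The combinatorics of a graph on four vertices. -/
theorem graph4 : ∀ e01 e02 e03 e12 e13 e23 : Bool,
    e01.toNat + e02.toNat + e03.toNat ≤ 2 → e01.toNat + e12.toNat + e13.toNat ≤ 2 →
    e02.toNat + e12.toNat + e23.toNat ≤ 2 → e03.toNat + e13.toNat + e23.toNat ≤ 2 →
    ¬ (e01 && e12 && e02) = true → ¬ (e01 && e13 && e03) = true →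
    ¬ (e02 && e23 && e03) = true → ¬ (e12 && e23 && e13) = true →
    ¬ (e01 && e12 && e23 && e03) = true → ¬ (e01 && e13 && e23 && e02) = true →
    ¬ (e02 && e12 && e13 && e03) = true →
    e01.toNat + e02.toNat + e03.toNat + e12.toNat + e13.toNat + e23.toNat ≤ 3 := by
  decide

set_option synthInstance.maxSize 4000 in
set_option maxRecDepth 8000 in
theorem graph4' : ∀ e01 e02 e03 e12 e13 e23 : Bool,
    e01.toNat + e02.toNat + e03.toNat ≤ 1 → e01.toNat + e12.toNat + e13.toNat ≤ 2 →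
    e02.toNat + e12.toNat + e23.toNat ≤ 2 → e03.toNat + e13.toNat + e23.toNat ≤ 2 →
    ¬ (e01 && e12 && e02) = true → ¬ (e01 && e13 && e03) = true →
    ¬ (e02 && e23 && e03) = true → ¬ (e12 && e23 && e13) = true →
    ¬ (e01 && e12 && e23 && e03) = true → ¬ (e01 && e13 && e23 && e02) = true →
    ¬ (e02 && e12 && e13 && e03) = true →
    e01.toNat + e02.toNat + e03.toNat + e12.toNat + e13.toNat + e23.toNat = 3 →
    (e01 && e12 && e23) = true ∨ (e01 && e13 && e23) = true ∨ (e02 && e12 && e13) = true ∨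
      (e02 && e23 && e13) = true ∨ (e03 && e13 && e12) = true ∨ (e03 && e23 && e12) = true := by
  decide

end Pool.Agent.HoroS
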