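import Pool.Agent.HoroS.Two

/-!
# Normal forms under isometries

For vectors `v = (X, Y)`, `w = (X', Y')` with `X Y' - X' Y = 1` let `φ z = pt (-B z v w / Q z v) (1 / Q z v)`. Then
`Q (φ z) x y = Q z (x X + y X') (x Y + y Y')` (`Q_comb`, `Q_mul`), so `φ` is bijective (the inverse belongs to the inverse
matrix; `Q_eq`) and maps `hor` to `hor` (`isHoro_iff`). For `H₀ = hor X Y` take `v = (X, Y)`,
`w = (-Y, X) / (X ^ 2 + Y ^ 2)`: `H₀` goes to `hor 1 0 = hline 1`. For `generic` take `v = (1, s)`, `w = (0, 1)` with `s`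
outside the finite set of the `s` with `Q z 1 s = Q w 1 s` for some `z ≠ w` in `P`.
-/

namespace Pool.Agent.HoroS

open Finset UpperHalfPlane

/-- The map preserves horocycles in both directions. -/
def Iso (φ : ℍ ≃ ℍ) : Prop := ∀ H : Set ℍ, IsHorocycle H ↔ IsHorocycle (φ '' H)

theorem Q_pos (z : ℍ) {X Y : ℝ} (h : X ≠ 0 ∨ Y ≠ 0) : 0 < Q z X Y := by
  have hz := z.im_pos
  unfold Q
  apply div_pos _ hz
  by_cases hY : Y = 0
  · have hX : X ≠ 0 := by
      rcases h with h | h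
      · exact h
      · exact absurd hY h
    subst hY
    have : 0 < X ^ 2 := by positivity
    nlinarith
  · have h1 : 0 < (Y * z.im) ^ 2 := by positivity
    have h2 := sq_nonneg (X - Y * z.re)
    linarith

theorem ne_of_det {X Y X' Y' : ℝ} (hD : X * Y' - X' * Y = 1) : X ≠ 0 ∨ Y ≠ 0 := by
  by_contra hcon
  rw [not_or, not_not, not_not] at hcon
  rw [hcon.1, hcon.2] at hD
  norm_num at hD

/-- The map of a unimodular change of the quadratic form. -/
noncomputable def phi (X Y X' Y' : ℝ) (hD : X * Y' - X' * Y = 1) (z : ℍ) : ℍ :=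
  pt (-B z X Y X' Y' / Q z X Y) (1 / Q z X Y) (one_div_pos.2 (Q_pos z (ne_of_det hD)))

theorem Q_phi {X Y X' Y' : ℝ} (hD : X * Y' - X' * Y = 1) (z : ℍ) (x y : ℝ) :
    Q (phi X Y X' Y' hD z) x y = Q z (x * X + y * X') (x * Y + y * Y') := by
  have h1 := (Q_pos z (ne_of_det hD)).ne'
  have h2 := Q_mul z X Y X' Y'
  rw [hD] at h2
  rw [Q_comb]
  have e : Q (phi X Y X' Y' hD z) x y =
      ((x - y * (-B z X Y X' Y' / Q z X Y)) ^ 2 + (y * (1 / Q z X Y)) ^ 2) / (1 / Q z X Y) := rfl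
  rw [e]
  generalize Q z X Y = q at *
  generalize Q z X' Y' = q' at *
  generalize B z X Y X' Y' = b at *
  field_simp
  linear_combination (-y ^ 2) * h2

theorem phi_phi {X Y X' Y' : ℝ} (hD : X * Y' - X' * Y = 1) (hD' : Y' * X - -X' * -Y = 1) (z : ℍ) :
    phi Y' (-Y) (-X') X hD' (phi X Y X' Y' hD z) = z := by
  apply Q_eq
  intro x y
  rw [Q_phi, Q_phi]
  congr 1
  · linear_combination x * hD
  · linear_combination y * hD

/-- The bijection of a unimodular change of the quadratic form. -/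
noncomputable def phiE (X Y X' Y' : ℝ) (hD : X * Y' - X' * Y = 1) : ℍ ≃ ℍ where
  toFun := phi X Y X' Y' hD
  invFun := phi Y' (-Y) (-X') X (by linear_combination hD)
  left_inv z := phi_phi hD _ z
  right_inv z := by
    apply Q_eq
    intro x y
    rw [Q_phi, Q_phi]
    congr 1
    · linear_combination x * hD
    · linear_combination y * hD

theorem phiE_hor {X Y X' Y' : ℝ} (hD : X * Y' - X' * Y = 1) (U V : ℝ) :
    phiE X Y X' Y' hD '' hor U V = hor (U * Y' - V * X') (V * X - U * Y) := by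
  ext z
  rw [Equiv.image_eq_preimage_symm]
  change Q (phi Y' (-Y) (-X') X (by linear_combination hD) z) U V = 1 ↔ Q z _ _ = 1
  rw [Q_phi]
  have e1 : U * Y' + V * -X' = U * Y' - V * X' := by ring
  have e2 : U * -Y + V * X = V * X - U * Y := by ring
  rw [e1, e2]

theorem phiE_horo {X Y X' Y' : ℝ} (hD : X * Y' - X' * Y = 1) {H : Set ℍ} (h : IsHorocycle H) :
    IsHorocycle (phiE X Y X' Y' hD '' H) := by
  rw [isHoro_iff] at h ⊢
  obtain ⟨U, V, h0, rfl⟩ := h
  refine ⟨_, _, ?_, phiE_hor hD U V⟩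
  by_contra hcon
  rw [not_or, not_not, not_not] at hcon
  have e1 : U = 0 := by linear_combination (-U) * hD + X * hcon.1 + X' * hcon.2
  have e2 : V = 0 := by linear_combination (-V) * hD + Y * hcon.1 + Y' * hcon.2
  rcases h0 with h | h
  · exact h e1
  · exact h e2

theorem phiE_symm {X Y X' Y' : ℝ} (hD : X * Y' - X' * Y = 1) (hD' : Y' * X - -X' * -Y = 1) :
    (phiE X Y X' Y' hD).symm = phiE Y' (-Y) (-X') X hD' := by
  ext1 z
  rfl

theorem phiE_iso {X Y X' Y' : ℝ} (hD : X * Y' - X' * Y = 1) : Iso (phiE X Y X' Y' hD) := by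
  intro H
  constructor
  · exact phiE_horo hD
  · intro h
    have h1 := phiE_horo (X := Y') (Y := -Y) (X' := -X') (Y' := X) (by linear_combination hD) h
    rw [← phiE_symm hD, Equiv.symm_image_image] at h1
    exact h1

theorem normalize {H₀ : Set ℍ} (h0 : IsHorocycle H₀) : ∃ φ : ℍ ≃ ℍ, Iso φ ∧ φ '' H₀ = hline 1 := by
  rw [isHoro_iff] at h0
  obtain ⟨X, Y, h, rfl⟩ := h0
  have hn : X ^ 2 + Y ^ 2 ≠ 0 := by
    intro h1
    have e1 : X = 0 := by nlinarith [sq_nonneg X, sq_nonneg Y]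
    have e2 : Y = 0 := by nlinarith [sq_nonneg X, sq_nonneg Y]
    rcases h with h | h
    · exact h e1
    · exact h e2
  have hD : X * (X / (X ^ 2 + Y ^ 2)) - (-Y / (X ^ 2 + Y ^ 2)) * Y = 1 := by
    field_simp
    ring
  refine ⟨phiE X Y _ _ hD, phiE_iso hD, ?_⟩
  rw [phiE_hor]
  have e1 : X * (X / (X ^ 2 + Y ^ 2)) - Y * (-Y / (X ^ 2 + Y ^ 2)) = 1 := by
    linear_combination hD
  have e2 : Y * X - X * Y = 0 := by ring
  rw [e1, e2, hor_zero, one_pow]

theorem finite_bad {z w : ℍ} (hne : z ≠ w) : {s : ℝ | Q z 1 s = Q w 1 s}.Finite := by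
  have hz := z.im_pos.ne'
  have hw := w.im_pos.ne'
  have e : ∀ z : ℍ, ∀ s : ℝ, Q z 1 s = 1 / z.im + -2 * z.re / z.im * s +
      (z.re ^ 2 + z.im ^ 2) / z.im * s ^ 2 := by
    intro z s
    have hz := z.im_pos.ne'
    unfold Q
    field_simp
    ring
  set p : Polynomial ℝ := Polynomial.C (1 / z.im - 1 / w.im) +
    Polynomial.C (-2 * z.re / z.im - -2 * w.re / w.im) * Polynomial.X +
    Polynomial.C ((z.re ^ 2 + z.im ^ 2) / z.im - (w.re ^ 2 + w.im ^ 2) / w.im) * Polynomial.X ^ 2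
    with hp
  have hp0 : p ≠ 0 := by
    intro h0
    apply hne
    have c0 : p.coeff 0 = 0 := by rw [h0, Polynomial.coeff_zero]
    have c1 : p.coeff 1 = 0 := by rw [h0, Polynomial.coeff_zero]
    rw [hp] at c0 c1
    simp only [Polynomial.coeff_add, Polynomial.coeff_C_mul, Polynomial.coeff_X_pow,
      Polynomial.coeff_X, Polynomial.coeff_C] at c0 c1
    norm_num at c0 c1
    have e1 : z.im = w.im := by
      have := sub_eq_zero.1 c0
      exact inv_injective this
    have e2 : z.re = w.re := by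
      rw [e1] at c1
      have h3 : (w.re - z.re) * 2 / w.im = 0 := by
        rw [← c1]
        ring
      rw [div_eq_zero_iff] at h3
      rcases h3 with h3 | h3
      · linarith
      · exact absurd h3 hw
    exact ext' e2 e1
  refine (Polynomial.finite_setOfPred_isRoot hp0).subset ?_
  intro s hs
  rw [Set.mem_ofPred_eq] at hs ⊢
  rw [e, e] at hs
  rw [Polynomial.IsRoot.def, hp]
  simp only [Polynomial.eval_add, Polynomial.eval_mul, Polynomial.eval_C, Polynomial.eval_X,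
    Polynomial.eval_pow]
  linear_combination hs

theorem generic (P : Finset ℍ) : ∃ φ : ℍ ≃ ℍ, Iso φ ∧
    ∀ z ∈ P, ∀ w ∈ P, (φ z).im = (φ w).im → z = w := by
  classical
  have hf : (⋃ z ∈ P, ⋃ w ∈ P.erase z, {s : ℝ | Q z 1 s = Q w 1 s}).Finite := by
    refine P.finite_toSet.biUnion fun p _ => (P.erase p).finite_toSet.biUnion fun q hq => ?_
    rw [Finset.mem_coe, Finset.mem_erase] at hq
    exact finite_bad (Ne.symm hq.1)
  obtain ⟨s, hs⟩ := hf.exists_notMem
  have hD : (1 : ℝ) * 1 - 0 * s = 1 := by ring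
  refine ⟨phiE 1 s 0 1 hD, phiE_iso hD, ?_⟩
  intro z hz w hw h
  by_contra hne
  apply hs
  have h1 : 1 / Q z 1 s = 1 / Q w 1 s := h
  rw [one_div, one_div] at h1
  have h2 := inv_injective h1
  simp only [Set.mem_iUnion]
  exact ⟨z, hz, w, Finset.mem_erase.2 ⟨Ne.symm hne, hw⟩, h2⟩

theorem DD_map {φ : ℍ ≃ ℍ} (hφ : Iso φ) (P : Finset ℍ) {H : Set ℍ} :
    φ '' H ∈ DD (P.map φ.toEmbedding) ↔ H ∈ DD P := by
  rw [mem_DD, mem_DD, ← hφ H]
  constructor
  · rintro ⟨h1, p, hp, q, hq, hne, h2, h3⟩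
    rw [Finset.mem_map] at hp hq
    obtain ⟨p, hp, rfl⟩ := hp
    obtain ⟨q, hq, rfl⟩ := hq
    rw [Equiv.coe_toEmbedding] at hne h2 h3
    rw [φ.injective.mem_set_image] at h2 h3
    exact ⟨h1, p, hp, q, hq, fun h => hne (by rw [h]), h2, h3⟩
  · rintro ⟨h1, p, hp, q, hq, hne, h2, h3⟩
    refine ⟨h1, φ p, ?_, φ q, ?_, fun h => hne (φ.injective h), ⟨p, h2, rfl⟩, ⟨q, h3, rfl⟩⟩
    · rw [Finset.mem_map]
      exact ⟨p, hp, rfl⟩
    · rw [Finset.mem_map]
      exact ⟨q, hq, rfl⟩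

theorem on_map {φ : ℍ ≃ ℍ} (P : Finset ℍ) {H : Set ℍ} :
    #(on (P.map φ.toEmbedding) (φ '' H)) = #(on P H) := by
  have e : on (P.map φ.toEmbedding) (φ '' H) = (on P H).map φ.toEmbedding := by
    ext z
    rw [mem_on, Finset.mem_map, Finset.mem_map]
    constructor
    · rintro ⟨⟨p, hp, rfl⟩, h2⟩
      rw [Equiv.coe_toEmbedding, φ.injective.mem_set_image] at h2
      exact ⟨p, mem_on.2 ⟨hp, h2⟩, rfl⟩
    · rintro ⟨p, hp, rfl⟩
      rw [mem_on] at hp
      exact ⟨⟨p, hp.1, rfl⟩, ⟨p, hp.2, rfl⟩⟩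
  rw [e, Finset.card_map]

theorem h_map {φ : ℍ ≃ ℍ} (hφ : Iso φ) (P : Finset ℍ) : h (P.map φ.toEmbedding) = h P := by
  rw [← card_DD, ← card_DD]
  symm
  refine Finset.card_bij (fun H _ => φ '' H) ?_ ?_ ?_
  · intro H hH
    exact (DD_map hφ P).2 hH
  · intro H _ H' _ h
    exact φ.injective.image_injective h
  · intro H hH
    refine ⟨φ.symm '' H, ?_, ?_⟩
    · rw [← DD_map hφ, Equiv.image_symm_image]
      exact hH
    · rw [Equiv.image_symm_image]

end Pool.Agent.HoroS
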