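import Pool.Agent.HoroS.Two

/-!
# Six points cannot have all their horocycles with exactly three points

All heights distinct. For `p ≠ q` in `P` and all `x`, `Q p x 1 - Q q x 1 = (1/p.im - 1/q.im) (x - x₁) (x - x₂)` where
`cir p x₁`, `cir p x₂` (`x₁ ≠ x₂`) are the two horocycles through `p`, `q` (see the second case of `two_through`); all
`H ∈ DD P` are circles, let `c H` be the centre. Let `sg t = 1` if `0 < t`, else `-1`, and
`χ p = ∏ q ∈ P.erase p, sg (1/p.im - 1/q.im)`. Fix `H ∈ DD P` with centre `x` and its three points. For `a ∈ H`, `q ≠ a`: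
`sg (1/a.im - 1/q.im) = η a q * ∏_{H' ∋ a, q, c H' > x} (-1)`, where `η a q = sg (Q a x 1 - Q q x 1)` if `q ∉ H` and
`η a q = sg (s a - s q)`, `s z = 2 (x - z.re)/z.im` (the slope), if `q ∈ H` (then `s a - s q = (1/a.im - 1/q.im)(x - x')`
with the other centre `x'`). The product over `q` of the second factors is `∏_{H' ∋ a, c H' > x} (-1) ^ (3 - 1) = 1`. So
`χ a = M · (product of sg (s a - s b) over the two other points b of H)` where `M = ∏_{d ∉ H} sg (Q a x 1 - Q d x 1)` does
not depend on `a ∈ H` (`Q a x 1` is the same for all `a ∈ H`): for the middle slope it is `-M`, for the two others `M`. So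
the sum of `χ` over the points of `H` is `M = ± 1`.
Sum of the squares over all `H`: `#(DD P) = 10`. But it is also
`∑_p 5 χ p ^ 2 + ∑_{p ≠ q} 2 χ p χ q = 18 + 2 (∑ χ p) ^ 2`.
-/

namespace Pool.Agent.HoroS

open Finset UpperHalfPlane

namespace Par

/-- the sign -/
noncomputable def sg (t : ℝ) : ℝ := if 0 < t then 1 else -1

theorem sg_pos {t : ℝ} (h : 0 < t) : sg t = 1 := if_pos h

theorem sg_neg {t : ℝ} (h : t < 0) : sg t = -1 := if_neg (not_lt.2 h.le)

theorem sg_sq (t : ℝ) : sg t ^ 2 = 1 := by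
  unfold sg
  split_ifs <;> norm_num

theorem sg_mul {u v : ℝ} (hu : u ≠ 0) (hv : v ≠ 0) : sg (u * v) = sg u * sg v := by
  rcases lt_or_gt_of_ne hu with h1 | h1 <;> rcases lt_or_gt_of_ne hv with h2 | h2
  · rw [sg_neg h1, sg_neg h2, sg_pos (mul_pos_of_neg_of_neg h1 h2)]
    norm_num
  · rw [sg_neg h1, sg_pos h2, sg_neg (mul_neg_of_neg_of_pos h1 h2)]
    norm_num
  · rw [sg_pos h1, sg_neg h2, sg_neg (mul_neg_of_pos_of_neg h1 h2)]
    norm_num
  · rw [sg_pos h1, sg_pos h2, sg_pos (mul_pos h1 h2)]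
    norm_num

theorem sg_sub {x y : ℝ} (h : x ≠ y) : sg (x - y) = if x < y then -1 else 1 := by
  rcases lt_or_gt_of_ne h with h1 | h1
  · rw [sg_neg (by linarith), if_pos h1]
  · rw [sg_pos (by linarith), if_neg (not_lt.2 h1.le)]

theorem sg_three {a b c : ℝ} (hab : a ≠ b) (hac : a ≠ c) (hbc : b ≠ c) :
    sg (a - b) * sg (a - c) + (sg (b - a) * sg (b - c) + sg (c - a) * sg (c - b)) = 1 := by
  rcases lt_or_gt_of_ne hab with h1 | h1 <;> rcases lt_or_gt_of_ne hac with h2 | h2 <;>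
    rcases lt_or_gt_of_ne hbc with h3 | h3
  · rw [sg_neg (show a - b < 0 by linarith), sg_neg (show a - c < 0 by linarith),
      sg_pos (show 0 < b - a by linarith), sg_neg (show b - c < 0 by linarith),
      sg_pos (show 0 < c - a by linarith), sg_pos (show 0 < c - b by linarith)]
    norm_num
  · rw [sg_neg (show a - b < 0 by linarith), sg_neg (show a - c < 0 by linarith),
      sg_pos (show 0 < b - a by linarith), sg_pos (show 0 < b - c by linarith),
      sg_pos (show 0 < c - a by linarith), sg_neg (show c - b < 0 by linarith)]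
    norm_num
  · exfalso
    linarith
  · rw [sg_neg (show a - b < 0 by linarith), sg_pos (show 0 < a - c by linarith),
      sg_pos (show 0 < b - a by linarith), sg_pos (show 0 < b - c by linarith),
      sg_neg (show c - a < 0 by linarith), sg_neg (show c - b < 0 by linarith)]
    norm_num
  · rw [sg_pos (show 0 < a - b by linarith), sg_neg (show a - c < 0 by linarith),
      sg_neg (show b - a < 0 by linarith), sg_neg (show b - c < 0 by linarith),
      sg_pos (show 0 < c - a by linarith), sg_pos (show 0 < c - b by linarith)]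
    norm_num
  · exfalso
    linarith
  · rw [sg_pos (show 0 < a - b by linarith), sg_pos (show 0 < a - c by linarith),
      sg_neg (show b - a < 0 by linarith), sg_neg (show b - c < 0 by linarith),
      sg_neg (show c - a < 0 by linarith), sg_pos (show 0 < c - b by linarith)]
    norm_num
  · rw [sg_pos (show 0 < a - b by linarith), sg_pos (show 0 < a - c by linarith),
      sg_neg (show b - a < 0 by linarith), sg_pos (show 0 < b - c by linarith),
      sg_neg (show c - a < 0 by linarith), sg_neg (show c - b < 0 by linarith)]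
    norm_num

theorem mem_circ_iff {z : ℍ} {x r : ℝ} : z ∈ circ x r ↔ Q z x 1 = 2 * r := by
  have := z.im_pos.ne'
  rw [mem_circ]
  unfold Q
  rw [div_eq_iff this]
  constructor
  · intro h
    linarith [h]
  · intro h
    linarith [h]

/-- the slope -/
noncomputable def sl (x : ℝ) (z : ℍ) : ℝ := 2 * (x - z.re) / z.im

theorem quad (p q : ℍ) (x : ℝ) : Q p x 1 - Q q x 1 = (1 / p.im - 1 / q.im) * x ^ 2 -
    2 * (p.re / p.im - q.re / q.im) * x +
      ((p.re ^ 2 + p.im ^ 2) / p.im - (q.re ^ 2 + q.im ^ 2) / q.im) := by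
  have hp := p.im_pos.ne'
  have hq := q.im_pos.ne'
  unfold Q
  field_simp
  ring

theorem slope (p q : ℍ) (x : ℝ) : sl x p - sl x q = 2 * (1 / p.im - 1 / q.im) * x -
    2 * (p.re / p.im - q.re / q.im) := by
  have hp := p.im_pos.ne'
  have hq := q.im_pos.ne'
  unfold sl
  field_simp
  ring

theorem factor {p q : ℍ} {x₁ x₂ : ℝ} (hne : x₁ ≠ x₂) (h1 : Q p x₁ 1 = Q q x₁ 1)
    (h2 : Q p x₂ 1 = Q q x₂ 1) (x : ℝ) :
    Q p x 1 - Q q x 1 = (1 / p.im - 1 / q.im) * ((x - x₁) * (x - x₂)) ∧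
    sl x₁ p - sl x₁ q = (1 / p.im - 1 / q.im) * (x₁ - x₂) := by
  rw [slope, quad]
  have e1 := quad p q x₁
  have e2 := quad p q x₂
  rw [h1, sub_self] at e1
  rw [h2, sub_self] at e2
  obtain ⟨A, hA⟩ : ∃ A : ℝ, A = 1 / p.im - 1 / q.im := ⟨_, rfl⟩
  obtain ⟨B, hB⟩ : ∃ B : ℝ, B = p.re / p.im - q.re / q.im := ⟨_, rfl⟩
  obtain ⟨C, hC⟩ : ∃ C : ℝ, C = (p.re ^ 2 + p.im ^ 2) / p.im - (q.re ^ 2 + q.im ^ 2) / q.im :=
    ⟨_, rfl⟩
  rw [← hA, ← hB, ← hC] at e1 e2 ⊢
  have e3 : (x₁ - x₂) * (A * (x₁ + x₂) - 2 * B) = 0 := by linear_combination e2 - e1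
  have e4 : A * (x₁ + x₂) - 2 * B = 0 := (mul_eq_zero.1 e3).resolve_left (sub_ne_zero.2 hne)
  constructor
  · linear_combination (x - x₁) * e4 - e1
  · linear_combination e4

end Par

open Par

theorem no_design (P : Finset ℍ) (hP : #P = 6) (him : ∀ z ∈ P, ∀ w ∈ P, z.im = w.im → z = w)
    (h3 : ∀ H ∈ DD P, #(on P H) = 3) : False := by
  classical
  have hcirc : ∀ H ∈ DD P, ∃ x r : ℝ, H = circ x r := by
    intro H hH
    obtain ⟨hh, p, hp, q, hq, hpq, h1, h2⟩ := mem_DD.1 hH
    rcases hh with ⟨c, hc, rfl⟩ | ⟨x, r, hr, rfl⟩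
    · exact absurd (him p hp q hq (h1.trans h2.symm)) hpq
    · exact ⟨x, r, rfl⟩
  choose! c r hcr using hcirc
  have hmem : ∀ H ∈ DD P, ∀ z : ℍ, z ∈ H ↔ Q z (c H) 1 = 2 * r H := by
    intro H hH z
    have h1 := mem_circ_iff (z := z) (x := c H) (r := r H)
    rw [← hcr H hH] at h1
    exact h1
  have hcne : ∀ H ∈ DD P, ∀ H' ∈ DD P, ∀ a : ℍ, a ∈ H → a ∈ H' → c H = c H' → H = H' := by
    intro H hH H' hH' a ha ha' hc
    rw [hmem H hH] at ha
    rw [hmem H' hH', ← hc, ha] at ha'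
    rw [hcr H hH, hcr H' hH', ← hc, show r H = r H' by linarith]
  obtain ⟨e, he⟩ : ∃ e : ℝ → Set ℍ → ℝ, e = fun x H => if x < c H then -1 else 1 := ⟨_, rfl⟩
  have he2 : ∀ x H, e x H ^ 2 = 1 := by
    intro x H
    rw [he]
    simp only
    split_ifs <;> norm_num
  obtain ⟨T, hT⟩ : ∃ T : ℍ → ℍ → ℝ → ℝ, T = fun a q x =>
    ∏ H ∈ (DD P).filter (fun H => a ∈ H ∧ q ∈ H), e x H := ⟨_, rfl⟩
  -- the products of the second factors
  have hTprod : ∀ a ∈ P, ∀ x, ∏ q ∈ P.erase a, T a q x = 1 := by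
    intro a ha x
    rw [hT]
    simp only [Finset.prod_filter]
    rw [Finset.prod_comm]
    refine Finset.prod_eq_one fun H hH => ?_
    by_cases haH : a ∈ H
    · rw [← Finset.prod_filter, Finset.prod_const]
      have h1 : (P.erase a).filter (fun q => a ∈ H ∧ q ∈ H) = (on P H).erase a := by
        ext q
        rw [Finset.mem_filter, Finset.mem_erase, Finset.mem_erase, mem_on]
        tauto
      rw [h1, Finset.card_erase_of_mem (mem_on.2 ⟨ha, haH⟩), h3 H hH]
      exact he2 x H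
    · refine Finset.prod_eq_one fun q _ => if_neg fun h => haH h.1
  -- the sign of a pair
  have hkey : ∀ H ∈ DD P, ∀ a ∈ P, a ∈ H → ∀ q ∈ P, q ≠ a →
      (if q ∈ H then sg (sl (c H) a - sl (c H) q) else sg (2 * r H - Q q (c H) 1)) =
        sg (1 / a.im - 1 / q.im) * T a q (c H) := by
    intro H hH a ha haH q hq hqa
    have hA : 1 / a.im - 1 / q.im ≠ 0 := by
      intro h
      have h1 : a.im = q.im := by
        have hp := a.im_pos.ne'
        have hq' := q.im_pos.ne'
        field_simp at h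
        linarith
      exact hqa (him a ha q hq h1).symm
    have haQ : Q a (c H) 1 = 2 * r H := (hmem H hH a).1 haH
    by_cases hqH : q ∈ H
    · rw [if_pos hqH]
      -- the other horocycle
      have hcard := card_pair ha hq (Ne.symm hqa)
      have hHf : H ∈ (DD P).filter (fun H => a ∈ H ∧ q ∈ H) :=
        Finset.mem_filter.2 ⟨hH, haH, hqH⟩
      obtain ⟨H₂, hH₂⟩ : ∃ H₂, ((DD P).filter (fun H => a ∈ H ∧ q ∈ H)).erase H = {H₂} := by
        rw [← Finset.card_eq_one, Finset.card_erase_of_mem hHf, hcard]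
      have hH₂m : H₂ ∈ ((DD P).filter (fun H => a ∈ H ∧ q ∈ H)).erase H := by
        rw [hH₂]
        exact Finset.mem_singleton_self _
      rw [Finset.mem_erase, Finset.mem_filter] at hH₂m
      obtain ⟨hne, hH₂D, haH₂, hqH₂⟩ := hH₂m
      have hcc : c H ≠ c H₂ := fun h => hne (hcne H hH H₂ hH₂D a haH haH₂ h).symm
      have hf := (factor (p := a) (q := q) hcc
        (((hmem H hH a).1 haH).trans ((hmem H hH q).1 hqH).symm)
        (((hmem H₂ hH₂D a).1 haH₂).trans ((hmem H₂ hH₂D q).1 hqH₂).symm) (c H)).2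
      rw [hf, sg_mul hA (sub_ne_zero.2 hcc)]
      congr 1
      rw [sg_sub hcc, hT]
      simp only
      rw [← Finset.mul_prod_erase _ _ hHf, hH₂, Finset.prod_singleton, he]
      simp
    · rw [if_neg hqH]
      have hcard := card_pair ha hq (Ne.symm hqa)
      obtain ⟨H₁, H₂, hne, hfil⟩ := Finset.card_eq_two.1 hcard
      have hm₁ : H₁ ∈ (DD P).filter (fun H => a ∈ H ∧ q ∈ H) := by
        rw [hfil]
        simp
      have hm₂ : H₂ ∈ (DD P).filter (fun H => a ∈ H ∧ q ∈ H) := by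
        rw [hfil]
        simp
      rw [Finset.mem_filter] at hm₁ hm₂
      obtain ⟨hD₁, ha₁, hq₁⟩ := hm₁
      obtain ⟨hD₂, ha₂, hq₂⟩ := hm₂
      have hcc : c H₁ ≠ c H₂ := fun h => hne (hcne H₁ hD₁ H₂ hD₂ a ha₁ ha₂ h)
      have hc₁ : c H ≠ c H₁ := fun h => by
        have := hcne H hH H₁ hD₁ a haH ha₁ h
        rw [this] at hqH
        exact hqH hq₁
      have hc₂ : c H ≠ c H₂ := fun h => by
        have := hcne H hH H₂ hD₂ a haH ha₂ h
        rw [this] at hqH
        exact hqH hq₂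
      have hf := (factor (p := a) (q := q) hcc
        (((hmem H₁ hD₁ a).1 ha₁).trans ((hmem H₁ hD₁ q).1 hq₁).symm)
        (((hmem H₂ hD₂ a).1 ha₂).trans ((hmem H₂ hD₂ q).1 hq₂).symm) (c H)).1
      rw [← haQ, hf, sg_mul hA (mul_ne_zero (sub_ne_zero.2 hc₁) (sub_ne_zero.2 hc₂)),
        sg_mul (sub_ne_zero.2 hc₁) (sub_ne_zero.2 hc₂)]
      congr 1
      rw [sg_sub hc₁, sg_sub hc₂, hT]
      simp only
      rw [hfil, Finset.prod_pair hne, he]
  obtain ⟨χ, hχ⟩ : ∃ χ : ℍ → ℝ, χ = fun a => ∏ q ∈ P.erase a, sg (1 / a.im - 1 / q.im) := ⟨_, rfl⟩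
  have hχ2 : ∀ a, χ a ^ 2 = 1 := by
    intro a
    rw [hχ]
    simp only
    rw [← Finset.prod_pow]
    exact Finset.prod_eq_one fun q _ => sg_sq _
  have hχH : ∀ H ∈ DD P, ∀ a ∈ P, a ∈ H → χ a =
      (∏ q ∈ (on P H).erase a, sg (sl (c H) a - sl (c H) q)) *
        ∏ q ∈ P.filter (fun q => q ∉ H), sg (2 * r H - Q q (c H) 1) := by
    intro H hH a ha haH
    have h1 : χ a = ∏ q ∈ P.erase a,
        (if q ∈ H then sg (sl (c H) a - sl (c H) q) else sg (2 * r H - Q q (c H) 1)) := by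
      rw [Finset.prod_congr rfl fun q hq => hkey H hH a ha haH q (Finset.mem_of_mem_erase hq)
        (Finset.ne_of_mem_erase hq), Finset.prod_mul_distrib, hTprod a ha, mul_one, hχ]
    rw [h1, Finset.prod_ite]
    congr 1
    · refine Finset.prod_congr ?_ fun _ _ => rfl
      ext q
      rw [Finset.mem_filter, Finset.mem_erase, Finset.mem_erase, mem_on]
      tauto
    · refine Finset.prod_congr ?_ fun _ _ => rfl
      ext q
      rw [Finset.mem_filter, Finset.mem_erase, Finset.mem_filter]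
      constructor
      · rintro ⟨⟨-, h2⟩, h3⟩
        exact ⟨h2, h3⟩
      · rintro ⟨h2, h3⟩
        exact ⟨⟨fun h => h3 (h ▸ haH), h2⟩, h3⟩
  have hsl : ∀ H ∈ DD P, ∀ a ∈ P, a ∈ H → ∀ q ∈ P, q ∈ H → a ≠ q → sl (c H) a ≠ sl (c H) q := by
    intro H hH a ha haH q hq hqH haq heq
    have hA : 1 / a.im - 1 / q.im ≠ 0 := by
      intro h
      have h1 : a.im = q.im := by
        have hp := a.im_pos.ne'
        have hq' := q.im_pos.ne'
        field_simp at h
        linarith
      exact haq (him a ha q hq h1)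
    have hcard := card_pair ha hq haq
    have hHf : H ∈ (DD P).filter (fun H => a ∈ H ∧ q ∈ H) :=
      Finset.mem_filter.2 ⟨hH, haH, hqH⟩
    obtain ⟨H₂, hH₂⟩ : ∃ H₂, ((DD P).filter (fun H => a ∈ H ∧ q ∈ H)).erase H = {H₂} := by
      rw [← Finset.card_eq_one, Finset.card_erase_of_mem hHf, hcard]
    have hH₂m : H₂ ∈ ((DD P).filter (fun H => a ∈ H ∧ q ∈ H)).erase H := by
      rw [hH₂]
      exact Finset.mem_singleton_self _
    rw [Finset.mem_erase, Finset.mem_filter] at hH₂m
    obtain ⟨hne, hH₂D, haH₂, hqH₂⟩ := hH₂m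
    have hcc : c H ≠ c H₂ := fun h => hne (hcne H hH H₂ hH₂D a haH haH₂ h).symm
    have hf := (factor (p := a) (q := q) hcc
      (((hmem H hH a).1 haH).trans ((hmem H hH q).1 hqH).symm)
      (((hmem H₂ hH₂D a).1 haH₂).trans ((hmem H₂ hH₂D q).1 hqH₂).symm) (c H)).2
    rw [heq, sub_self] at hf
    rcases mul_eq_zero.1 hf.symm with h | h
    · exact hA h
    · exact hcc (sub_eq_zero.1 h)
  -- the sum over a horocycle
  have hsum : ∀ H ∈ DD P, (∑ p ∈ on P H, χ p) ^ 2 = 1 := by
    intro H hH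
    obtain ⟨a, b, d, hab, had, hbd, hon⟩ := Finset.card_eq_three.1 (h3 H hH)
    have ha : a ∈ on P H := by rw [hon]; simp
    have hb : b ∈ on P H := by rw [hon]; simp
    have hd : d ∈ on P H := by rw [hon]; simp
    have ha' := mem_on.1 ha
    have hb' := mem_on.1 hb
    have hd' := mem_on.1 hd
    have ea := hχH H hH a ha'.1 ha'.2
    have eb := hχH H hH b hb'.1 hb'.2
    have ed := hχH H hH d hd'.1 hd'.2
    obtain ⟨M, hM⟩ : ∃ M : ℝ, M = ∏ q ∈ P.filter (fun q => q ∉ H), sg (2 * r H - Q q (c H) 1) :=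
      ⟨_, rfl⟩
    rw [← hM] at ea eb ed
    have hM2 : M ^ 2 = 1 := by
      rw [hM, ← Finset.prod_pow]
      exact Finset.prod_eq_one fun q _ => sg_sq _
    have e1 : (on P H).erase a = {b, d} := by
      rw [hon]
      ext z
      simp only [Finset.mem_erase, Finset.mem_insert, Finset.mem_singleton]
      constructor
      · rintro ⟨h1, h2⟩
        tauto
      · rintro (rfl | rfl)
        · exact ⟨Ne.symm hab, by simp⟩
        · exact ⟨Ne.symm had, by simp⟩
    have e2 : (on P H).erase b = {a, d} := by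
      rw [hon]
      ext z
      simp only [Finset.mem_erase, Finset.mem_insert, Finset.mem_singleton]
      constructor
      · rintro ⟨h1, h2⟩
        tauto
      · rintro (rfl | rfl)
        · exact ⟨hab, by simp⟩
        · exact ⟨Ne.symm hbd, by simp⟩
    have e3 : (on P H).erase d = {a, b} := by
      rw [hon]
      ext z
      simp only [Finset.mem_erase, Finset.mem_insert, Finset.mem_singleton]
      constructor
      · rintro ⟨h1, h2⟩
        tauto
      · rintro (rfl | rfl)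
        · exact ⟨had, by simp⟩
        · exact ⟨hbd, by simp⟩
    rw [e1, Finset.prod_pair hbd] at ea
    rw [e2, Finset.prod_pair had] at eb
    rw [e3, Finset.prod_pair hab] at ed
    have hthree := sg_three (hsl H hH a ha'.1 ha'.2 b hb'.1 hb'.2 hab)
      (hsl H hH a ha'.1 ha'.2 d hd'.1 hd'.2 had) (hsl H hH b hb'.1 hb'.2 d hd'.1 hd'.2 hbd)
    have hS : ∑ p ∈ on P H, χ p = M := by
      rw [hon, Finset.sum_insert (by simp [hab, had]), Finset.sum_pair hbd, ea, eb, ed]
      linear_combination M * hthree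
    rw [hS, hM2]
  -- the degrees
  have hdeg : ∀ p ∈ P, #((DD P).filter (fun H => p ∈ H)) = 5 := by
    intro p hp
    have h1 := sum_at hp
    rw [Finset.sum_congr rfl (g := fun _ => 2) (fun H hH => by
      rw [h3 H (Finset.mem_filter.1 hH).1])] at h1
    rw [Finset.sum_const, smul_eq_mul, hP] at h1
    omega
  have hDD : (#(DD P) : ℝ) = 10 := by
    have h1 : ∑ H ∈ DD P, #(on P H) = ∑ p ∈ P, #((DD P).filter (fun H => p ∈ H)) := by
      have h2 : ∀ H : Set ℍ, #(on P H) = ∑ p ∈ P, if p ∈ H then 1 else 0 := by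
        intro H
        rw [← Finset.sum_filter, ← Finset.card_eq_sum_ones]
        congr 1
      have h4 : ∀ p : ℍ, #((DD P).filter (fun H => p ∈ H)) = ∑ H ∈ DD P, if p ∈ H then 1 else 0 := by
        intro p
        rw [← Finset.sum_filter, ← Finset.card_eq_sum_ones]
      simp only [h2, h4]
      rw [Finset.sum_comm]
    rw [Finset.sum_congr rfl h3, Finset.sum_congr rfl hdeg, Finset.sum_const, Finset.sum_const, hP,
      smul_eq_mul, smul_eq_mul] at h1
    have h2 : #(DD P) = 10 := by omega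
    rw [h2]
    norm_num
  -- the double count
  have hcount : ∑ H ∈ DD P, (∑ p ∈ on P H, χ p) ^ 2 =
      ∑ p ∈ P, ∑ q ∈ P, χ p * χ q * (#((DD P).filter (fun H => p ∈ H ∧ q ∈ H)) : ℝ) := by
    have h1 : ∀ H : Set ℍ, (∑ p ∈ on P H, χ p) ^ 2 =
        ∑ p ∈ P, ∑ q ∈ P, χ p * χ q * (if p ∈ H ∧ q ∈ H then 1 else 0) := by
      intro H
      have h2 : ∑ p ∈ on P H, χ p = ∑ p ∈ P, if p ∈ H then χ p else 0 := by
        rw [← Finset.sum_filter]
        refine Finset.sum_congr ?_ fun _ _ => rfl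
        ext z
        rw [mem_on, Finset.mem_filter]
      rw [h2, sq, Finset.sum_mul_sum]
      refine Finset.sum_congr rfl fun p _ => Finset.sum_congr rfl fun q _ => ?_
      by_cases hp : p ∈ H <;> by_cases hq : q ∈ H <;> simp [hp, hq]
    have h4 : ∀ p q : ℍ, (#((DD P).filter (fun H => p ∈ H ∧ q ∈ H)) : ℝ) =
        ∑ H ∈ DD P, if p ∈ H ∧ q ∈ H then 1 else 0 := by
      intro p q
      rw [← Finset.sum_filter, Finset.card_eq_sum_ones]
      push_cast
      rfl
    simp only [h1, h4]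
    rw [Finset.sum_comm]
    refine Finset.sum_congr rfl fun p _ => ?_
    rw [Finset.sum_comm]
    refine Finset.sum_congr rfl fun q _ => ?_
    rw [Finset.mul_sum]
  have hN : ∀ p ∈ P, ∀ q ∈ P, (#((DD P).filter (fun H => p ∈ H ∧ q ∈ H)) : ℝ) =
      2 + if p = q then 3 else 0 := by
    intro p hp q hq
    by_cases hpq : p = q
    · rw [if_pos hpq, ← hpq]
      simp only [and_self]
      rw [hdeg p hp]
      norm_num
    · rw [if_neg hpq, card_pair hp hq hpq]
      norm_num
  rw [Finset.sum_congr rfl hsum, Finset.sum_const, nsmul_eq_mul, mul_one, hDD] at hcount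
  have hfin : ∑ p ∈ P, ∑ q ∈ P, χ p * χ q * (#((DD P).filter (fun H => p ∈ H ∧ q ∈ H)) : ℝ) =
      2 * (∑ p ∈ P, χ p) ^ 2 + 18 := by
    have h1 : ∀ p ∈ P, ∑ q ∈ P, χ p * χ q * (#((DD P).filter (fun H => p ∈ H ∧ q ∈ H)) : ℝ) =
        2 * (χ p * ∑ q ∈ P, χ q) + 3 := by
      intro p hp
      rw [Finset.sum_congr rfl (g := fun q => 2 * (χ p * χ q) + if p = q then 3 * χ p ^ 2 else 0)
        (fun q hq => by
          rw [hN p hp q hq]
          split_ifs with h
          · rw [← h]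
            ring
          · ring), Finset.sum_add_distrib, Finset.sum_ite_eq, if_pos hp, hχ2 p,
        ← Finset.mul_sum, ← Finset.mul_sum]
      ring
    rw [Finset.sum_congr rfl h1, Finset.sum_add_distrib, ← Finset.mul_sum, ← Finset.sum_mul,
      Finset.sum_const, hP]
    norm_num
    ring
  rw [hfin] at hcount
  nlinarith [sq_nonneg (∑ p ∈ P, χ p)]

end Pool.Agent.HoroS
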