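import Pool.Agent.HoroS.Fin6
import Pool.Agent.HoroS.Norm
import Pool.Agent.HoroS.Par

/-!
# The lower bounds for five and for six points
-/

namespace Pool.Agent.HoroS

open Finset UpperHalfPlane

open Classical in
theorem deg_eq {R : ℍ → Prop} {A : Finset ℍ} {a b c d : ℍ} (hA : A = {a, b, c, d}) (hab : a ≠ b)
    (hac : a ≠ c) (had : a ≠ d) (hbc : b ≠ c) (hbd : b ≠ d) (hcd : c ≠ d) :
    #{y ∈ A | y ≠ a ∧ R y} = (decide (R b)).toNat + (decide (R c)).toNat + (decide (R d)).toNat := by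
  have h1 : {y ∈ A | y ≠ a ∧ R y} = (if R b then {b} else ∅) ∪ ((if R c then {c} else ∅) ∪
      (if R d then {d} else ∅)) := by
    ext y
    rw [hA, mem_filter, mem_insert, mem_insert, mem_insert, mem_singleton, mem_union, mem_union]
    constructor
    · rintro ⟨rfl | rfl | rfl | rfl, h2, h3⟩
      · exact absurd rfl h2
      · left; simp [h3]
      · right; left; simp [h3]
      · right; right; simp [h3]
    · rintro (h | h | h)
      · split_ifs at h with h2
        · rw [mem_singleton] at h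
          subst h
          exact ⟨Or.inr (Or.inl rfl), hab.symm, h2⟩
        · simp at h
      · split_ifs at h with h2
        · rw [mem_singleton] at h
          subst h
          exact ⟨Or.inr (Or.inr (Or.inl rfl)), hac.symm, h2⟩
        · simp at h
      · split_ifs at h with h2
        · rw [mem_singleton] at h
          subst h
          exact ⟨Or.inr (Or.inr (Or.inr rfl)), had.symm, h2⟩
        · simp at h
  rw [h1]
  by_cases h2 : R b <;> by_cases h3 : R c <;> by_cases h4 : R d <;>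
    simp [h2, h3, h4, hbc, hbd, hcd]
  exact card_eq_three.2 ⟨c, b, d, hbc.symm, hcd, hbd, rfl⟩

theorem dec_symm {p : ℍ} {x y : ℝ} [Decidable (Rel p x y)] [Decidable (Rel p y x)] :
    decide (Rel p x y) = decide (Rel p y x) :=
  decide_eq_decide.2 ⟨Rel.symm, Rel.symm⟩

open Classical in
theorem graph_facts {P : Finset ℍ} {p : ℍ} (hp : p ∈ P) (hp1 : p.im ≠ 1) {a b c d : ℍ}
    (hA : on P L1 = {a, b, c, d}) (hab : a ≠ b) (hac : a ≠ c) (had : a ≠ d) (hbc : b ≠ c)
    (hbd : b ≠ d) (hcd : c ≠ d) :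
    2 ≤ #(SS P p) ∧ (#(SS P p) ≤ 3 → #(SS P p) = 2 ∧
      ((∃ H ∈ SS P p, a ∈ H) → AnyPath p a.re b.re c.re d.re)) := by
  have ma : a ∈ on P L1 := by rw [hA]; simp
  have mb : b ∈ on P L1 := by rw [hA]; simp
  have mc : c ∈ on P L1 := by rw [hA]; simp
  have md : d ∈ on P L1 := by rw [hA]; simp
  have ia := (mem_L.1 ma).2
  have ib := (mem_L.1 mb).2
  have ic := (mem_L.1 mc).2
  have id' := (mem_L.1 md).2
  have rab := re_ne ia ib hab
  have rac := re_ne ia ic hac
  have rad := re_ne ia id' had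
  have rbc := re_ne ib ic hbc
  have rbd := re_ne ib id' hbd
  have rcd := re_ne ic id' hcd
  have da := deg_add hp hp1 ma
  have db := deg_add hp hp1 mb
  have dc := deg_add hp hp1 mc
  have dd := deg_add hp hp1 md
  rw [deg_eq (R := fun y => Rel p a.re y.re) hA hab hac had hbc hbd hcd] at da
  rw [deg_eq (R := fun y => Rel p b.re y.re) (a := b) (b := a) (c := c) (d := d)
    (by rw [hA]; ext z; simp only [mem_insert, mem_singleton]; tauto)
    hab.symm hbc hbd hac had hcd] at db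
  rw [deg_eq (R := fun y => Rel p c.re y.re) (a := c) (b := a) (c := b) (d := d)
    (by rw [hA]; ext z; simp only [mem_insert, mem_singleton]; tauto)
    hac.symm hbc.symm hcd hab had hbd] at dc
  rw [deg_eq (R := fun y => Rel p d.re y.re) (a := d) (b := a) (c := b) (d := c)
    (by rw [hA]; ext z; simp only [mem_insert, mem_singleton]; tauto)
    had.symm hbd.symm hcd.symm hab hac hbc] at dd
  have hs := sum_SS P p
  rw [hA, sum_insert (by simp [hab, hac, had]), sum_insert (by simp [hbc, hbd]),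
    sum_insert (by simp [hcd]), sum_singleton] at hs
  rw [dec_symm (x := b.re) (y := a.re)] at db
  rw [dec_symm (x := c.re) (y := a.re), dec_symm (x := c.re) (y := b.re)] at dc
  rw [dec_symm (x := d.re) (y := a.re), dec_symm (x := d.re) (y := b.re),
    dec_symm (x := d.re) (y := c.re)] at dd
  have t1 : ¬ (decide (Rel p a.re b.re) && decide (Rel p b.re c.re) && decide (Rel p a.re c.re)) =
      true := by
    simp only [Bool.and_eq_true, decide_eq_true_eq]
    rintro ⟨⟨h1, h2⟩, h3⟩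
    exact Rel.no_triangle hp1 h1 h2 h3 rab rbc rac
  have t2 : ¬ (decide (Rel p a.re b.re) && decide (Rel p b.re d.re) && decide (Rel p a.re d.re)) =
      true := by
    simp only [Bool.and_eq_true, decide_eq_true_eq]
    rintro ⟨⟨h1, h2⟩, h3⟩
    exact Rel.no_triangle hp1 h1 h2 h3 rab rbd rad
  have t3 : ¬ (decide (Rel p a.re c.re) && decide (Rel p c.re d.re) && decide (Rel p a.re d.re)) =
      true := by
    simp only [Bool.and_eq_true, decide_eq_true_eq]
    rintro ⟨⟨h1, h2⟩, h3⟩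
    exact Rel.no_triangle hp1 h1 h2 h3 rac rcd rad
  have t4 : ¬ (decide (Rel p b.re c.re) && decide (Rel p c.re d.re) && decide (Rel p b.re d.re)) =
      true := by
    simp only [Bool.and_eq_true, decide_eq_true_eq]
    rintro ⟨⟨h1, h2⟩, h3⟩
    exact Rel.no_triangle hp1 h1 h2 h3 rbc rcd rbd
  have s1 : ¬ (decide (Rel p a.re b.re) && decide (Rel p b.re c.re) && decide (Rel p c.re d.re) &&
      decide (Rel p a.re d.re)) = true := by
    simp only [Bool.and_eq_true, decide_eq_true_eq]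
    rintro ⟨⟨⟨h1, h2⟩, h3⟩, h4⟩
    exact rac (Rel.no_square hp1 h1 h4 h2.symm h3 rbd)
  have s2 : ¬ (decide (Rel p a.re b.re) && decide (Rel p b.re d.re) && decide (Rel p c.re d.re) &&
      decide (Rel p a.re c.re)) = true := by
    simp only [Bool.and_eq_true, decide_eq_true_eq]
    rintro ⟨⟨⟨h1, h2⟩, h3⟩, h4⟩
    exact rad (Rel.no_square hp1 h1 h4 h2.symm h3.symm rbc)
  have s3 : ¬ (decide (Rel p a.re c.re) && decide (Rel p b.re c.re) && decide (Rel p b.re d.re) &&
      decide (Rel p a.re d.re)) = true := by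
    simp only [Bool.and_eq_true, decide_eq_true_eq]
    rintro ⟨⟨⟨h1, h2⟩, h3⟩, h4⟩
    exact rab (Rel.no_square hp1 h1 h4 h2 h3 rcd)
  have g := graph4 _ _ _ _ _ _ (by omega) (by omega) (by omega) (by omega) t1 t2 t3 t4 s1 s2 s3
  refine ⟨by omega, fun h3 => ⟨by omega, ?_⟩⟩
  rintro ⟨H, hH, haH⟩
  have hu : 1 ≤ #{H ∈ UU P L1 | p ∈ H ∧ a ∈ H} := by
    rw [Nat.one_le_iff_ne_zero, Ne, card_eq_zero, ← Ne, ← nonempty_iff_ne_empty]
    unfold SS at hH
    rw [mem_filter] at hH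
    exact ⟨H, mem_filter.2 ⟨hH.1, hH.2.1, haH⟩⟩
  have g' := graph4' _ _ _ _ _ _ (by omega) (by omega) (by omega) (by omega) t1 t2 t3 t4 s1 s2 s3
    (by omega)
  simp only [Bool.and_eq_true, decide_eq_true_eq] at g'
  unfold AnyPath
  rcases g' with ⟨⟨h1, h2⟩, h3⟩ | ⟨⟨h1, h2⟩, h3⟩ | ⟨⟨h1, h2⟩, h3⟩ | ⟨⟨h1, h2⟩, h3⟩ |
    ⟨⟨h1, h2⟩, h3⟩ | ⟨⟨h1, h2⟩, h3⟩
  · exact Or.inl ⟨h1, h2, h3⟩
  · exact Or.inr (Or.inl ⟨h1, h2, h3.symm⟩)
  · exact Or.inr (Or.inr (Or.inl ⟨h1, h2.symm, h3⟩))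
  · exact Or.inr (Or.inr (Or.inr (Or.inl ⟨h1, h2, h3.symm⟩)))
  · exact Or.inr (Or.inr (Or.inr (Or.inr (Or.inl ⟨h1, h2.symm, h3⟩))))
  · exact Or.inr (Or.inr (Or.inr (Or.inr (Or.inr ⟨h1, h2.symm, h3.symm⟩))))

theorem four_le_UU {P : Finset ℍ} (h0 : L1 ∈ DD P) (h4 : #(on P L1) = 4) :
    #(DD P) = 7 + #(UU P L1) := by
  have h1 := card_DD_eq h0
  have h2 := card_TT h0
  rw [h4] at h2
  omega

open Classical in
theorem exists_abcd {A : Finset ℍ} (h4 : #A = 4) {a : ℍ} (ha : a ∈ A) : ∃ b c d : ℍ,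
    A = {a, b, c, d} ∧ a ≠ b ∧ a ≠ c ∧ a ≠ d ∧ b ≠ c ∧ b ≠ d ∧ c ≠ d := by
  have h1 : #(A.erase a) = 3 := by rw [card_erase_of_mem ha, h4]
  obtain ⟨b, c, d, hbc, hbd, hcd, h2⟩ := card_eq_three.1 h1
  have hb : b ∈ A.erase a := by rw [h2]; simp
  have hc : c ∈ A.erase a := by rw [h2]; simp
  have hd : d ∈ A.erase a := by rw [h2]; simp
  rw [mem_erase] at hb hc hd
  exact ⟨b, c, d, by rw [← h2, insert_erase ha], hb.1.symm, hc.1.symm, hd.1.symm, hbc, hbd, hcd⟩

theorem SS_subset (P : Finset ℍ) (p : ℍ) : SS P p ⊆ UU P L1 := by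
  classical
  unfold SS
  exact filter_subset _ _

/-- Four of five points on a horocycle. -/
theorem four_of_five {P : Finset ℍ} (h0 : L1 ∈ DD P) (h4 : #(on P L1) = 4) (h5 : 4 < #P) :
    9 ≤ #(DD P) := by
  classical
  obtain ⟨p, hp, hpn⟩ : ∃ p ∈ P, p ∉ on P L1 := by
    by_contra hcon
    push Not at hcon
    have := card_le_card (show P ⊆ on P L1 from hcon)
    omega
  have hp1 : p.im ≠ 1 := fun h => hpn (mem_L.2 ⟨hp, h⟩)
  obtain ⟨a, ha⟩ : (on P L1).Nonempty := by
    rw [← card_pos]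
    omega
  obtain ⟨b, c, d, hA, hab, hac, had, hbc, hbd, hcd⟩ := exists_abcd h4 ha
  have h6 := (graph_facts hp hp1 hA hab hac had hbc hbd hcd).1
  have h7 := card_le_card (SS_subset P p)
  have h8 := four_le_UU h0 h4
  omega

/-- Four of six points on a horocycle. -/
theorem four_of_six {P : Finset ℍ} (h0 : L1 ∈ DD P) (h4 : #(on P L1) = 4) (h6 : #P = 6) :
    11 ≤ #(DD P) := by
  classical
  by_contra hcon
  rw [not_le] at hcon
  have hD := four_le_UU h0 h4
  have hU : #(UU P L1) ≤ 3 := by omega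
  have h2 : #(P \ on P L1) = 2 := by
    rw [card_sdiff_of_subset (on_subset P L1), h4, h6]
  obtain ⟨p, q, hpq, hPA⟩ := card_eq_two.1 h2
  have hp : p ∈ P \ on P L1 := by rw [hPA]; simp
  have hq : q ∈ P \ on P L1 := by rw [hPA]; simp
  rw [mem_sdiff] at hp hq
  have hp1 : p.im ≠ 1 := fun h => hp.2 (mem_L.2 ⟨hp.1, h⟩)
  have hq1 : q.im ≠ 1 := fun h => hq.2 (mem_L.2 ⟨hq.1, h⟩)
  have hpU := card_le_card (SS_subset P p)
  have hqU := card_le_card (SS_subset P q)
  obtain ⟨a₀, ha₀⟩ : (on P L1).Nonempty := by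
    rw [← card_pos]
    omega
  have hcard : #(SS P p) = 2 ∧ #(SS P q) = 2 := by
    obtain ⟨b, c, d, hA, hab, hac, had, hbc, hbd, hcd⟩ := exists_abcd h4 ha₀
    exact ⟨((graph_facts hp.1 hp1 hA hab hac had hbc hbd hcd).2 (by omega)).1,
      ((graph_facts hq.1 hq1 hA hab hac had hbc hbd hcd).2 (by omega)).1⟩
  obtain ⟨H, hH⟩ : (SS P p ∩ SS P q).Nonempty := by
    rw [← card_pos]
    have e1 := card_union_add_card_inter (SS P p) (SS P q)
    have e2 := card_le_card (union_subset (SS_subset P p) (SS_subset P q))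
    omega
  rw [mem_inter] at hH
  have hHp := hH.1
  have hHq := hH.2
  unfold SS at hHp hHq
  rw [mem_filter] at hHp hHq
  obtain ⟨a, ha⟩ := card_eq_one.1 hHp.2.2
  have haH : a ∈ on P H ∩ on P L1 := by rw [ha]; simp
  rw [mem_inter] at haH
  have ha1 := (mem_L.1 haH.2).2
  have haH' := (mem_on.1 haH.1).2
  obtain ⟨b, c, d, hA, hab, hac, had, hbc, hbd, hcd⟩ := exists_abcd h4 haH.2
  have hPp := ((graph_facts hp.1 hp1 hA hab hac had hbc hbd hcd).2 (by omega)).2 ⟨H, hH.1, haH'⟩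
  have hPq := ((graph_facts hq.1 hq1 hA hab hac had hbc hbd hcd).2 (by omega)).2 ⟨H, hH.2, haH'⟩
  have hHD : H ∈ DD P := by
    have := hHp.1
    unfold UU at this
    rw [mem_filter] at this
    exact this.1
  obtain ⟨s, hs, rp⟩ := horo_of hp1 ha1 (mem_DD.1 hHD).1 haH' hHp.2.1
  have rq : Rel q a.re s := by
    rw [← rel_iff hq1, ← hs]
    exact hHq.2.1
  have hno : ∀ x ∈ on P L1, x ≠ a → s ≠ x.re := by
    intro x hx hxa hsx
    apply hxa
    have hx1 := (mem_L.1 hx).2
    have : x ∈ on P H ∩ on P L1 := by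
      rw [mem_inter]
      refine ⟨mem_on.2 ⟨(mem_L.1 hx).1, ?_⟩, hx⟩
      rw [hs, hsx]
      exact mem_hor2_right hx1 _
    rw [ha, mem_singleton] at this
    exact this
  have mb : b ∈ on P L1 := by rw [hA]; simp
  have mc : c ∈ on P L1 := by rw [hA]; simp
  have md : d ∈ on P L1 := by rw [hA]; simp
  have ib := (mem_L.1 mb).2
  have ic := (mem_L.1 mc).2
  have id' := (mem_L.1 md).2
  exact final_case hpq hp1 hq1 (re_ne ha1 ib hab) (re_ne ha1 ic hac) (re_ne ha1 id' had)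
    (re_ne ib ic hbc) (re_ne ib id' hbd) (re_ne ic id' hcd) (hno b mb hab.symm) (hno c mc hac.symm)
    (hno d md had.symm) rp rq hPp hPq

theorem lo5 {P : Finset ℍ} (hP : #P = 5) : 8 ≤ h P := by
  rw [← card_DD]
  by_cases h3 : ∀ H ∈ DD P, #(on P H) ≤ 3
  · obtain ⟨T, h1, h2, -⟩ := count_three h3
    rw [hP] at h1 h2
    omega
  · push Not at h3
    obtain ⟨H, hH, hH3⟩ := h3
    rcases Nat.lt_or_ge (#(on P H)) 5 with h5 | h5
    · obtain ⟨φ, hφ, hφH₀⟩ := normalize (mem_DD.1 hH).1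
      have hφH : φ '' H = L1 := hφH₀
      have e1 : L1 ∈ DD (P.map φ.toEmbedding) := by
        rw [← hφH]
        exact (DD_map hφ P).2 hH
      have e2 : #(on (P.map φ.toEmbedding) L1) = 4 := by
        rw [← hφH, on_map]
        omega
      have e3 := four_of_five e1 e2 (by rw [card_map, hP]; norm_num)
      rw [card_DD, h_map hφ, ← card_DD] at e3
      omega
    · have := lower_of_five hH h5
      omega

theorem lo6 {P : Finset ℍ} (hP : #P = 6) : 11 ≤ h P := by
  rw [← card_DD]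
  by_cases h3 : ∀ H ∈ DD P, #(on P H) ≤ 3
  · obtain ⟨T, h1, h2, hT⟩ := count_three h3
    rw [hP] at h1 h2
    by_contra hcon
    have h4 : #(DD P) = 10 := by omega
    have h5 : T = 10 := by omega
    have h6 := hT (by omega)
    obtain ⟨φ, hφ, hg⟩ := generic P
    refine no_design (P.map φ.toEmbedding) (by rw [card_map, hP]) ?_ ?_
    · intro z hz w hw hzw
      rw [mem_map] at hz hw
      obtain ⟨z, hz, rfl⟩ := hz
      obtain ⟨w, hw, rfl⟩ := hw
      rw [hg z hz w hw hzw]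
    · intro H hH
      have e : φ '' (φ.symm '' H) = H := by
        ext z
        simp
      rw [← e] at hH ⊢
      rw [on_map]
      exact h6 _ ((DD_map hφ P).1 hH)
  · push Not at h3
    obtain ⟨H, hH, hH3⟩ := h3
    rcases Nat.lt_or_ge (#(on P H)) 5 with h5 | h5
    · obtain ⟨φ, hφ, hφH₀⟩ := normalize (mem_DD.1 hH).1
      have hφH : φ '' H = L1 := hφH₀
      have e1 : L1 ∈ DD (P.map φ.toEmbedding) := by
        rw [← hφH]
        exact (DD_map hφ P).2 hH
      have e2 : #(on (P.map φ.toEmbedding) L1) = 4 := by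
        rw [← hφH, on_map]
        omega
      have e3 := four_of_six e1 e2 (by rw [card_map, hP])
      rw [card_DD, h_map hφ, ← card_DD] at e3
      exact e3
    · exact lower_of_five hH h5

end Pool.Agent.HoroS
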