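import Pool.Agent.HoroS.Lo

/-!
# The lower bounds for three and for four points
-/

namespace Pool.Agent.HoroS

open Finset UpperHalfPlane

theorem lo3 {P : Finset ℍ} (hP : #P = 3) : 4 ≤ h P := by
  classical
  rw [← card_DD]
  have h3 : ∀ H ∈ DD P, #(on P H) ≤ 3 := fun H _ => by
    rw [← hP]
    exact card_le_card (on_subset P H)
  obtain ⟨T, h1, h2, hT⟩ := count_three h3
  rw [hP] at h1 h2
  by_contra hcon
  have h4 : T = 2 := by omega
  have h5 : #(DD P) = 2 := by omega
  have h6 := hT (by omega)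
  obtain ⟨H, H', hne, hD⟩ := card_eq_two.1 h5
  have hH : H ∈ DD P := by rw [hD]; simp
  have hH' : H' ∈ DD P := by rw [hD]; simp
  have e : ∀ G ∈ DD P, on P G = P := fun G hG =>
    eq_of_subset_of_card_le (on_subset P G) (by rw [hP, h6 G hG])
  have h7 := on_inter_le hH hH' hne
  rw [e H hH, e H' hH', inter_self, hP] at h7
  omega

theorem lo4 {P : Finset ℍ} (hP : #P = 4) : 6 ≤ h P := by
  classical
  rw [← card_DD]
  by_cases h3 : ∀ H ∈ DD P, #(on P H) ≤ 3
  · obtain ⟨T, h1, h2, hT⟩ := count_three h3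
    rw [hP] at h1 h2
    by_contra hcon
    have h4 : T = 4 := by omega
    have h5 : #(DD P) = 4 := by omega
    have h6 := hT (by omega)
    obtain ⟨H, hH⟩ : (DD P).Nonempty := by
      rw [← card_pos]
      omega
    obtain ⟨φ, hφ, hφH₀⟩ := normalize (mem_DD.1 hH).1
    have hφH : φ '' H = L1 := hφH₀
    set R := P.map φ.toEmbedding with hR
    have hR4 : #R = 4 := by rw [hR, card_map, hP]
    have e1 : L1 ∈ DD R := by
      rw [← hφH]
      exact (DD_map hφ P).2 hH
    have e2 : ∀ G ∈ DD R, #(on R G) = 3 := by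
      intro G hG
      have e : φ '' (φ.symm '' G) = G := by
        ext z
        simp
      rw [← e] at hG ⊢
      rw [on_map]
      exact h6 _ ((DD_map hφ P).1 hG)
    have h7 := e2 _ e1
    obtain ⟨a, b, c, hab, hac, hbc, hA⟩ := card_eq_three.1 h7
    have ma : a ∈ on R L1 := by rw [hA]; simp
    have mb : b ∈ on R L1 := by rw [hA]; simp
    have mc : c ∈ on R L1 := by rw [hA]; simp
    obtain ⟨p, hp, hpn⟩ : ∃ p ∈ R, p ∉ on R L1 := by
      by_contra hc
      push Not at hc
      have := card_le_card (show R ⊆ on R L1 from hc)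
      omega
    have hp1 : p.im ≠ 1 := fun h => hpn (mem_L.2 ⟨hp, h⟩)
    have hRp : R = insert p (on R L1) := by
      symm
      apply eq_of_subset_of_card_le
      · intro z hz
        rw [mem_insert] at hz
        rcases hz with rfl | hz
        · exact hp
        · exact on_subset _ _ hz
      · rw [card_insert_of_notMem hpn, h7, hR4]
    have key : ∀ x ∈ on R L1, ∀ y ∈ on R L1, x ≠ y → Rel p x.re y.re := by
      intro x hx y hy hxy
      obtain ⟨hxR, hx1⟩ := mem_L.1 hx
      obtain ⟨hyR, hy1⟩ := mem_L.1 hy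
      have hG : hor2 x.re y.re ∈ DD R := mem_DD.2 ⟨hor2_horo _ _, x, hxR, y, hyR, hxy,
        mem_hor2_left hx1 _, mem_hor2_right hy1 _⟩
      have h8 := e2 _ hG
      have h9 := on_inter_le hG e1 (hor2_ne _ _)
      by_contra hr
      have hpG : p ∉ hor2 x.re y.re := fun h => hr ((rel_iff hp1).1 h)
      have h10 : on R (hor2 x.re y.re) ⊆ on R (hor2 x.re y.re) ∩ on R L1 := by
        intro z hz
        rw [mem_inter]
        refine ⟨hz, ?_⟩
        have hz1 := (mem_on.1 hz).1
        rw [hRp, mem_insert] at hz1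
        rcases hz1 with rfl | hz1
        · exact absurd (mem_on.1 hz).2 hpG
        · exact hz1
      have := card_le_card h10
      omega
    exact Rel.no_triangle hp1 (key a ma b mb hab) (key b mb c mc hbc) (key a ma c mc hac)
      (re_ne (mem_L.1 ma).2 (mem_L.1 mb).2 hab) (re_ne (mem_L.1 mb).2 (mem_L.1 mc).2 hbc)
      (re_ne (mem_L.1 ma).2 (mem_L.1 mc).2 hac)
  · push Not at h3
    obtain ⟨H, hH, hH3⟩ := h3
    have h1 := card_DD_eq hH
    have h2 := card_TT hH
    have h4 : #(on P H) = 4 := le_antisymm (by rw [← hP]; exact card_le_card (on_subset P H)) hH3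
    rw [h4] at h2
    omega

end Pool.Agent.HoroS
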