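import Pool.Agent.HoroS.Two

/-!
# The horocycles through a point and two points of height one
-/

namespace Pool.Agent.HoroS

open Finset UpperHalfPlane

/-- The circle through `(x, 1)` and `(y, 1)`. -/
noncomputable def hor2 (x y : ℝ) : Set ℍ := circ ((x + y) / 2) ((1 + ((x - y) / 2) ^ 2) / 2)

theorem hor2_comm (x y : ℝ) : hor2 x y = hor2 y x := by
  unfold hor2
  rw [add_comm x y, ← neg_sub y x, neg_div, neg_sq]

theorem hor2_inj {x y z : ℝ} (h : hor2 x y = hor2 x z) : y = z := by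
  have := (circ_inj (by positivity) (by positivity) h).1
  linarith

/-- The parameter of a point. -/
noncomputable def kap (p : ℍ) : ℝ := (p.im + 1) / (p.im - 1)

/-- The point `p` is on the circle through `(x, 1)` and `(y, 1)`. -/
def Rel (p : ℍ) (x y : ℝ) : Prop :=
  (x - p.re) ^ 2 + (y - p.re) ^ 2 - 2 * kap p * ((x - p.re) * (y - p.re)) = 4 * p.im

theorem Rel.symm {p : ℍ} {x y : ℝ} (h : Rel p x y) : Rel p y x := by
  unfold Rel at h ⊢
  linarith

theorem rel_iff {p : ℍ} (hp : p.im ≠ 1) {x y : ℝ} : p ∈ hor2 x y ↔ Rel p x y := by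
  have h1 : p.im - 1 ≠ 0 := sub_ne_zero.2 hp
  unfold hor2 Rel kap
  rw [mem_circ]
  have e : (x - p.re) ^ 2 + (y - p.re) ^ 2 - 2 * ((p.im + 1) / (p.im - 1)) *
      ((x - p.re) * (y - p.re)) - 4 * p.im =
      (-4 / (p.im - 1)) * ((p.re - (x + y) / 2) ^ 2 + p.im ^ 2 -
        2 * ((1 + ((x - y) / 2) ^ 2) / 2) * p.im) := by
    field_simp
    ring
  constructor
  · intro h
    rw [h, sub_self, mul_zero] at e
    linarith
  · intro h
    rw [h, sub_self] at e
    have h2 : -4 / (p.im - 1) ≠ 0 := div_ne_zero (by norm_num) h1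
    have := (mul_eq_zero.1 e.symm).resolve_left h2
    linarith

theorem one_lt_kap {p : ℍ} (hp : p.im ≠ 1) : 1 < kap p ^ 2 := by
  have h1 : p.im - 1 ≠ 0 := sub_ne_zero.2 hp
  have h2 := p.im_pos
  have h3 : 0 < (p.im - 1) ^ 2 := by positivity
  unfold kap
  rw [div_pow, lt_div_iff₀ h3]
  nlinarith

theorem horo_of {p : ℍ} (hp : p.im ≠ 1) {z : ℍ} (hz : z.im = 1) {H : Set ℍ} (hH : IsHorocycle H)
    (h1 : z ∈ H) (h2 : p ∈ H) : ∃ y : ℝ, H = hor2 z.re y ∧ Rel p z.re y := by
  rcases hH with ⟨c, hc, rfl⟩ | ⟨u, r, hr, rfl⟩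
  · exfalso
    rw [mem_hline] at h1 h2
    exact hp (h2.trans (h1.symm.trans hz))
  · have e : circ u r = hor2 z.re (2 * u - z.re) := by
      rw [mem_circ, hz] at h1
      unfold hor2
      congr 1
      · ring
      · linear_combination -(1 / 2) * h1
    refine ⟨2 * u - z.re, e, ?_⟩
    rw [← rel_iff hp, ← e]
    exact h2

theorem Rel.sum {p : ℍ} {x y z : ℝ} (h1 : Rel p x y) (h2 : Rel p x z) (hyz : y ≠ z) :
    (y - p.re) + (z - p.re) = 2 * kap p * (x - p.re) := by
  unfold Rel at h1 h2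
  have h3 : (y - z) * ((y - p.re) + (z - p.re) - 2 * kap p * (x - p.re)) = 0 := by
    linear_combination h1 - h2
  have := (mul_eq_zero.1 h3).resolve_left (sub_ne_zero.2 hyz)
  linarith

theorem Rel.no_square {p : ℍ} (hp : p.im ≠ 1) {x w y z : ℝ} (h1 : Rel p x y) (h2 : Rel p x z)
    (h3 : Rel p w y) (h4 : Rel p w z) (hyz : y ≠ z) : x = w := by
  have e1 := h1.sum h2 hyz
  have e2 := h3.sum h4 hyz
  have hk := one_lt_kap hp
  have h0 : kap p ≠ 0 := by
    intro h
    rw [h] at hk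
    norm_num at hk
  have e3 : kap p * (x - w) = 0 := by linear_combination (1 / 2) * e2 - (1 / 2) * e1
  exact sub_eq_zero.1 ((mul_eq_zero.1 e3).resolve_left h0)

theorem Rel.no_triangle {p : ℍ} (hp : p.im ≠ 1) {x y z : ℝ} (h1 : Rel p x y) (h2 : Rel p y z)
    (h3 : Rel p x z) (hxy : x ≠ y) (hyz : y ≠ z) (hxz : x ≠ z) : False := by
  have e1 := h1.sum h3 hyz
  have e2 := h1.symm.sum h2 hxz
  have hk := one_lt_kap hp
  have e3 : (x - y) * (2 * kap p + 1) = 0 := by linear_combination e2 - e1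
  have e4 := (mul_eq_zero.1 e3).resolve_left (sub_ne_zero.2 hxy)
  have e5 : kap p = -1 / 2 := by linarith
  rw [e5] at hk
  norm_num at hk

theorem Rel.no_three {p : ℍ} {x y z w : ℝ} (h1 : Rel p x y) (h2 : Rel p x z)
    (h3 : Rel p x w) (hyz : y ≠ z) (hyw : y ≠ w) (hzw : z ≠ w) : False := by
  have e1 := h1.sum h2 hyz
  have e2 := h1.sum h3 hyw
  exact hzw (by linarith)

/-! ### The three exceptional types -/

theorem core1 {k l a b c d s e P : ℝ} (hk : 1 < k ^ 2) (hP : 0 < P)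
    (h1 : a + c = 2 * k * b) (h2 : b + d = 2 * k * c) (h3 : b + s = 2 * k * a)
    (hF : a ^ 2 + b ^ 2 - 2 * k * (a * b) = 4 * P)
    (g1 : (a - e) + (b - e) = 2 * l * (c - e)) (g2 : (c - e) + (d - e) = 2 * l * (b - e))
    (g3 : (s - e) + (c - e) = 2 * l * (a - e)) (hab : a ≠ b) (hbc : b ≠ c) : False := by
  have ec : c = 2 * k * b - a := by linarith
  have ed : d = 2 * k * (2 * k * b - a) - b := by rw [← ec]; linarith
  have es : s = 2 * k * a - b := by linarith
  subst ec ed es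
  have i1 : a * (1 + 2 * l - k) + b * (1 - 2 * k * l - k) = 0 := by
    linear_combination (1 / 2) * g1 - (1 / 2) * g3
  have i2 : a * (l - 2 * k) + b * (2 * k ^ 2 - l) = 0 := by
    linear_combination (1 / 2) * g2 - (1 / 2) * g3
  have i3 : b * ((k - 1) * ((l - k) * (l + k + 1))) = 0 := by
    linear_combination (-(l - 2 * k) / 2) * i1 + ((1 + 2 * l - k) / 2) * i2
  have hk1 : k - 1 ≠ 0 := by
    intro h
    have : k = 1 := by linarith
    rw [this] at hk
    norm_num at hk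
  rcases mul_eq_zero.1 i3 with hb | h
  · subst hb
    have ha : a ≠ 0 := hab
    have j1 : 1 + 2 * l - k = 0 := by
      have : a * (1 + 2 * l - k) = 0 := by linear_combination i1
      exact (mul_eq_zero.1 this).resolve_left ha
    have j2 : l - 2 * k = 0 := by
      have : a * (l - 2 * k) = 0 := by linear_combination i2
      exact (mul_eq_zero.1 this).resolve_left ha
    have j3 : k = -1 / 3 := by linarith
    rw [j3] at hk
    norm_num at hk
  · rcases mul_eq_zero.1 ((mul_eq_zero.1 h).resolve_left hk1) with h | h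
    · have hl : l = k := by linarith
      subst hl
      have j1 : l * (a - (2 * l - 1) * b) = 0 := by linear_combination -i2
      have hl0 : l ≠ 0 := by
        intro h
        rw [h] at hk
        norm_num at hk
      have j2 := (mul_eq_zero.1 j1).resolve_left hl0
      exact hbc (by linear_combination j2)
    · have hl : l = -k - 1 := by linarith
      subst hl
      have j1 : (3 * k + 1) * a = (2 * k ^ 2 + k + 1) * b := by linear_combination -i2
      have j2 : (3 * k + 1) ^ 2 * (4 * P) =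
          -(2 * b ^ 2 * ((k ^ 2 - 1) * (4 * k ^ 2 + 3 * k + 1))) := by
        rw [← hF]
        linear_combination ((3 * k + 1) * a + (2 * k ^ 2 + k + 1) * b - 2 * k * b * (3 * k + 1)) * j1
      have j3 : 0 < (3 * k + 1) ^ 2 := by
        have : 3 * k + 1 ≠ 0 := by
          intro h
          have : k = -1 / 3 := by linarith
          rw [this] at hk
          norm_num at hk
        positivity
      have j4 : 0 ≤ (k ^ 2 - 1) * (4 * k ^ 2 + 3 * k + 1) := by
        apply mul_nonneg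
        · linarith
        · nlinarith [sq_nonneg (4 * k + 3 / 2)]
      have j5 : 0 < (3 * k + 1) ^ 2 * (4 * P) := by positivity
      have j6 : 0 ≤ 2 * b ^ 2 * ((k ^ 2 - 1) * (4 * k ^ 2 + 3 * k + 1)) := by positivity
      linarith

theorem core2 {k l a b c d s e P R : ℝ} (hk : 1 < k ^ 2) (hl : 1 < l ^ 2) (hP : 0 < P) (hR : 0 < R)
    (h1 : a + c = 2 * k * b) (h2 : b + d = 2 * k * c) (h3 : b + s = 2 * k * a)
    (hF : a ^ 2 + b ^ 2 - 2 * k * (a * b) = 4 * P)
    (g1 : (a - e) + (d - e) = 2 * l * (c - e)) (g2 : (c - e) + (b - e) = 2 * l * (d - e))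
    (g3 : (s - e) + (c - e) = 2 * l * (a - e))
    (hG : (a - e) ^ 2 + (c - e) ^ 2 - 2 * l * ((a - e) * (c - e)) = 4 * R) : False := by
  have ec : c = 2 * k * b - a := by linarith
  have ed : d = 2 * k * (2 * k * b - a) - b := by rw [← ec]; linarith
  have es : s = 2 * k * a - b := by linarith
  subst ec ed es
  have i1 : (1 - 2 * k + 2 * l) * (a - k * b) = 0 := by
    linear_combination (1 / 2) * g1 - (1 / 2) * g3
  rcases mul_eq_zero.1 i1 with h | h
  · have el : l = k - 1 / 2 := by linarith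
    subst el
    have j1 : (4 * k ^ 2 - 2 * k - 1) * a = (8 * k ^ 3 - 4 * k ^ 2 - 2 * k - 1) * b := by
      linear_combination g2 - g3
    have j2 : (2 * k - 3) * e = -((2 * k - 1) * b) := by linear_combination g3
    have hB : 0 < 4 * k ^ 2 - 2 * k - 1 := by nlinarith [sq_nonneg (k - 1 / 2), sq_nonneg (k - 1)]
    have hp : 0 < (2 * k - 3) * (2 * k + 1) := by nlinarith
    have j3 : (2 * k - 3) ^ 2 * (4 * k ^ 2 - 2 * k - 1) ^ 2 * (4 * R) =
        -(4 * b ^ 2 * (((2 * k - 3) * (2 * k + 1)) * ((k - 1) ^ 2 * (8 * k ^ 2 + 4 * k + 1)))) := by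
      rw [← hG]
      have hX : (2 * k - 3) * (4 * k ^ 2 - 2 * k - 1) * (a - e) =
          b * ((2 * k - 3) * (8 * k ^ 3 - 4 * k ^ 2 - 2 * k - 1) +
            (2 * k - 1) * (4 * k ^ 2 - 2 * k - 1)) := by
        linear_combination (2 * k - 3) * j1 - (4 * k ^ 2 - 2 * k - 1) * j2
      have hY : (2 * k - 3) * (4 * k ^ 2 - 2 * k - 1) * (2 * k * b - a - e) =
          b * ((2 * k - 3) + (2 * k - 1) * (4 * k ^ 2 - 2 * k - 1)) := by
        linear_combination -(2 * k - 3) * j1 - (4 * k ^ 2 - 2 * k - 1) * j2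
      have e1 : (2 * k - 3) ^ 2 * (4 * k ^ 2 - 2 * k - 1) ^ 2 *
          ((a - e) ^ 2 + (2 * k * b - a - e) ^ 2 -
            2 * (k - 1 / 2) * ((a - e) * (2 * k * b - a - e))) =
          ((2 * k - 3) * (4 * k ^ 2 - 2 * k - 1) * (a - e)) ^ 2 +
          ((2 * k - 3) * (4 * k ^ 2 - 2 * k - 1) * (2 * k * b - a - e)) ^ 2 -
          (2 * k - 1) * (((2 * k - 3) * (4 * k ^ 2 - 2 * k - 1) * (a - e)) *
            ((2 * k - 3) * (4 * k ^ 2 - 2 * k - 1) * (2 * k * b - a - e))) := by ring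
      rw [e1, hX, hY]
      ring
    have j4 : 0 < (2 * k - 3) ^ 2 := by
      have : 2 * k - 3 ≠ 0 := fun h => by rw [h] at hp; norm_num at hp
      positivity
    have j5 : 0 < (2 * k - 3) ^ 2 * (4 * k ^ 2 - 2 * k - 1) ^ 2 * (4 * R) := by positivity
    have j6 : 0 < 8 * k ^ 2 + 4 * k + 1 := by nlinarith [sq_nonneg (k + 1 / 4)]
    have j7 : 0 ≤ 4 * b ^ 2 * (((2 * k - 3) * (2 * k + 1)) * ((k - 1) ^ 2 * (8 * k ^ 2 + 4 * k + 1))) := by
      positivity
    linarith
  · have ea : a = k * b := by linarith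
    subst ea
    have : b ^ 2 * (k ^ 2 - 1) + 4 * P = 0 := by linear_combination -hF
    have h5 : 0 ≤ b ^ 2 * (k ^ 2 - 1) := mul_nonneg (sq_nonneg _) (by linarith)
    linarith

theorem core3 {k l a b c d s e P : ℝ} (hk : 1 < k ^ 2) (hP : 0 < P)
    (h1 : a + c = 2 * k * b) (h2 : b + d = 2 * k * c) (h3 : b + s = 2 * k * a)
    (hF : a ^ 2 + b ^ 2 - 2 * k * (a * b) = 4 * P)
    (g1 : (a - e) + (b - e) = 2 * l * (d - e)) (g2 : (d - e) + (c - e) = 2 * l * (b - e))
    (g3 : (s - e) + (d - e) = 2 * l * (a - e)) (hab : a ≠ b) : False := by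
  have ec : c = 2 * k * b - a := by linarith
  have ed : d = 2 * k * (2 * k * b - a) - b := by rw [← ec]; linarith
  have es : s = 2 * k * a - b := by linarith
  subst ec ed es
  have i1 : (2 * l - 2 * k - 1) * (a - b) = 0 := by
    linear_combination g2 - g3
  have i2 := (mul_eq_zero.1 i1).resolve_right (sub_ne_zero.2 hab)
  have el : l = k + 1 / 2 := by linarith
  subst el
  have j1 : (2 * k ^ 2 + 2 * k + 1) * a = (4 * k ^ 3 + 4 * k ^ 2 - k - 2) * b := by
    linear_combination (1 / 2) * g1 - (1 / 2) * g2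
  have j2 : (2 * k ^ 2 + 2 * k + 1) ^ 2 * (4 * P) =
      -(b ^ 2 * ((k ^ 2 - 1) * (8 * k ^ 2 + 12 * k + 5))) := by
    rw [← hF]
    linear_combination ((2 * k ^ 2 + 2 * k + 1) * a + (4 * k ^ 3 + 4 * k ^ 2 - k - 2) * b -
      2 * k * b * (2 * k ^ 2 + 2 * k + 1)) * j1
  have j3 : 0 < 2 * k ^ 2 + 2 * k + 1 := by nlinarith [sq_nonneg (k + 1 / 2)]
  have j4 : 0 ≤ (k ^ 2 - 1) * (8 * k ^ 2 + 12 * k + 5) := by
    apply mul_nonneg
    · linarith
    · nlinarith [sq_nonneg (k + 3 / 4)]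
  have j5 : 0 < (2 * k ^ 2 + 2 * k + 1) ^ 2 * (4 * P) := by positivity
  have j6 : 0 ≤ b ^ 2 * ((k ^ 2 - 1) * (8 * k ^ 2 + 12 * k + 5)) := by positivity
  linarith

theorem type1 {p q : ℍ} (hp : p.im ≠ 1) {a b c d s : ℝ} (hab : a ≠ b) (hac : a ≠ c) (hbc : b ≠ c)
    (hbd : b ≠ d) (hcd : c ≠ d) (hsb : s ≠ b) (hsc : s ≠ c)
    (p1 : Rel p a b) (p2 : Rel p b c) (p3 : Rel p c d) (p4 : Rel p a s) (q4 : Rel q a s)
    (q1 : Rel q a c) (q2 : Rel q c b) (q3 : Rel q b d) : False := by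
  refine core1 (k := kap p) (l := kap q) (a := a - p.re) (b := b - p.re) (c := c - p.re)
    (d := d - p.re) (s := s - p.re) (e := q.re - p.re) (P := p.im) (one_lt_kap hp) p.im_pos
    (p1.symm.sum p2 hac) (p2.symm.sum p3 hbd) (p1.sum p4 hsb.symm) ?_ ?_ ?_ ?_ ?_ ?_
  · unfold Rel at p1
    linarith
  · have := q1.symm.sum q2 hab
    linear_combination this
  · have := q2.symm.sum q3 hcd
    linear_combination this
  · have := q4.sum q1 hsc
    linear_combination this
  · intro h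
    exact hab (by linarith)
  · intro h
    exact hbc (by linarith)

theorem type2 {p q : ℍ} (hp : p.im ≠ 1) (hq : q.im ≠ 1) {a b c d s : ℝ} (hac : a ≠ c)
    (had : a ≠ d) (hbc : b ≠ c) (hbd : b ≠ d) (hsb : s ≠ b) (hsc : s ≠ c)
    (p1 : Rel p a b) (p2 : Rel p b c) (p3 : Rel p c d) (p4 : Rel p a s) (q4 : Rel q a s)
    (q1 : Rel q a c) (q2 : Rel q c d) (q3 : Rel q d b) : False := by
  refine core2 (k := kap p) (l := kap q) (a := a - p.re) (b := b - p.re) (c := c - p.re)
    (d := d - p.re) (s := s - p.re) (e := q.re - p.re) (P := p.im) (R := q.im) (one_lt_kap hp)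
    (one_lt_kap hq) p.im_pos q.im_pos
    (p1.symm.sum p2 hac) (p2.symm.sum p3 hbd) (p1.sum p4 hsb.symm) ?_ ?_ ?_ ?_ ?_
  · unfold Rel at p1
    linarith
  · have := q1.symm.sum q2 had
    linear_combination this
  · have := q2.symm.sum q3 hbc.symm
    linear_combination this
  · have := q4.sum q1 hsc
    linear_combination this
  · unfold Rel at q1
    linear_combination q1

theorem type3 {p q : ℍ} (hp : p.im ≠ 1) {a b c d s : ℝ} (hab : a ≠ b) (hac : a ≠ c)
    (hbd : b ≠ d) (hcd : c ≠ d) (hsb : s ≠ b) (hsd : s ≠ d)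
    (p1 : Rel p a b) (p2 : Rel p b c) (p3 : Rel p c d) (p4 : Rel p a s) (q4 : Rel q a s)
    (q1 : Rel q a d) (q2 : Rel q d b) (q3 : Rel q b c) : False := by
  refine core3 (k := kap p) (l := kap q) (a := a - p.re) (b := b - p.re) (c := c - p.re)
    (d := d - p.re) (s := s - p.re) (e := q.re - p.re) (P := p.im) (one_lt_kap hp) p.im_pos
    (p1.symm.sum p2 hac) (p2.symm.sum p3 hbd) (p1.sum p4 hsb.symm) ?_ ?_ ?_ ?_ ?_
  · unfold Rel at p1
    linarith
  · have := q1.symm.sum q2 hab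
    linear_combination this
  · have := q2.symm.sum q3 hcd.symm
    linear_combination this
  · have := q4.sum q1 hsd
    linear_combination this
  · intro h
    exact hab (by linarith)

end Pool.Agent.HoroS
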