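import Pool.Agent.HoroS.Defs

/-!
# Two points are on exactly two horocycles
-/

namespace Pool.Agent.HoroS

open Finset UpperHalfPlane

/-- The circle centred at `x` through `p`. -/
noncomputable def cir (p : ℍ) (x : ℝ) : Set ℍ := circ x (((p.re - x) ^ 2 + p.im ^ 2) / (2 * p.im))

theorem cir_pos (p : ℍ) (x : ℝ) : 0 < ((p.re - x) ^ 2 + p.im ^ 2) / (2 * p.im) := by
  have := p.im_pos
  positivity

theorem cir_horo (p : ℍ) (x : ℝ) : IsHorocycle (cir p x) := Or.inr ⟨x, _, cir_pos p x, rfl⟩

theorem mem_cir {p q : ℍ} {x : ℝ} : q ∈ cir p x ↔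
    ((q.re - x) ^ 2 + q.im ^ 2) * p.im = ((p.re - x) ^ 2 + p.im ^ 2) * q.im := by
  have := p.im_pos.ne'
  unfold cir
  rw [mem_circ]
  constructor
  · intro h
    rw [h]
    field_simp
  · intro h
    field_simp
    linarith

theorem self_mem_cir (p : ℍ) (x : ℝ) : p ∈ cir p x := mem_cir.2 rfl

theorem eq_cir {p : ℍ} {x r : ℝ} (h : p ∈ circ x r) : circ x r = cir p x := by
  rw [mem_circ] at h
  have := p.im_pos.ne'
  unfold cir
  congr 1
  rw [h]
  field_simp

theorem cir_inj {p : ℍ} {x y : ℝ} (h : cir p x = cir p y) : x = y :=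
  (circ_inj (cir_pos p x) (cir_pos p y) h).1

/-- The two horocycles through two points. -/
theorem two_through {p q : ℍ} (hpq : p ≠ q) : ∃ H₁ H₂ : Set ℍ, H₁ ≠ H₂ ∧
    {H : Set ℍ | IsHorocycle H ∧ p ∈ H ∧ q ∈ H} = {H₁, H₂} := by
  have hp := p.im_pos
  have hq := q.im_pos
  by_cases him : p.im = q.im
  · have hre : p.re ≠ q.re := fun h => hpq (ext' h him)
    refine ⟨hline p.im, cir p ((p.re + q.re) / 2), hline_ne_circ hp (cir_pos _ _), ?_⟩
    ext H
    simp only [Set.mem_ofPred_eq, Set.mem_insert_iff, Set.mem_singleton_iff]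
    constructor
    · rintro ⟨⟨c, hc, rfl⟩ | ⟨x, r, hr, rfl⟩, h1, h2⟩
      · left
        rw [mem_hline] at h1
        rw [h1]
      · right
        rw [eq_cir h1] at h2 ⊢
        rw [mem_cir, him] at h2
        have h3 : (p.re - q.re) * (p.re + q.re - 2 * x) = 0 := by
          have h4 : ((q.re - x) ^ 2 - (p.re - x) ^ 2) * q.im = 0 := by linear_combination h2
          have h5 := (mul_eq_zero.1 h4).resolve_right hq.ne'
          linear_combination -h5
        have h4 := (mul_eq_zero.1 h3).resolve_left (sub_ne_zero.2 hre)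
        have h5 : x = (p.re + q.re) / 2 := by linarith
        rw [h5]
    · rintro (rfl | rfl)
      · exact ⟨Or.inl ⟨p.im, hp, rfl⟩, rfl, him.symm⟩
      · refine ⟨cir_horo _ _, self_mem_cir _ _, ?_⟩
        rw [mem_cir, him]
        ring
  · set A : ℝ := q.im - p.im with hA
    have hA0 : A ≠ 0 := sub_ne_zero.2 (Ne.symm him)
    set b : ℝ := q.im * p.re - p.im * q.re with hb
    set D : ℝ := p.im * q.im * ((p.re - q.re) ^ 2 + (p.im - q.im) ^ 2) with hD
    have hD0 : 0 < D := by
      have : 0 < (p.im - q.im) ^ 2 := by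
        have := sub_ne_zero.2 him
        positivity
      positivity
    have hs : √D ^ 2 = D := Real.sq_sqrt hD0.le
    have hs0 : 0 < √D := Real.sqrt_pos.2 hD0
    have key : ∀ x : ℝ, q ∈ cir p x ↔ (A * x - b) ^ 2 = D := by
      intro x
      rw [mem_cir]
      have e : A * (((p.re - x) ^ 2 + p.im ^ 2) * q.im - ((q.re - x) ^ 2 + q.im ^ 2) * p.im) =
          (A * x - b) ^ 2 - D := by
        rw [hA, hb, hD]
        ring
      constructor
      · intro h
        rw [h, sub_self, mul_zero] at e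
        linarith
      · intro h
        rw [h, sub_self] at e
        have := (mul_eq_zero.1 e).resolve_left hA0
        linarith
    refine ⟨cir p ((b + √D) / A), cir p ((b - √D) / A), ?_, ?_⟩
    · intro h
      have h1 := cir_inj h
      rw [div_left_inj' hA0] at h1
      linarith
    · ext H
      simp only [Set.mem_ofPred_eq, Set.mem_insert_iff, Set.mem_singleton_iff]
      constructor
      · rintro ⟨⟨c, hc, rfl⟩ | ⟨x, r, hr, rfl⟩, h1, h2⟩
        · exfalso
          rw [mem_hline] at h1 h2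
          exact him (h1.trans h2.symm)
        · rw [eq_cir h1] at h2 ⊢
          have h3 := (key x).1 h2
          have h4 : (A * x - b - √D) * (A * x - b + √D) = 0 := by linear_combination h3 - hs
          rcases mul_eq_zero.1 h4 with h | h
          · left
            congr 1
            field_simp
            linarith
          · right
            congr 1
            field_simp
            linarith
      · rintro (rfl | rfl)
        · refine ⟨cir_horo _ _, self_mem_cir _ _, (key _).2 ?_⟩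
          have e : A * ((b + √D) / A) = b + √D := by field_simp
          rw [e]
          linear_combination hs
        · refine ⟨cir_horo _ _, self_mem_cir _ _, (key _).2 ?_⟩
          have e : A * ((b - √D) / A) = b - √D := by field_simp
          rw [e]
          linear_combination hs

theorem finite_through {p q : ℍ} (hpq : p ≠ q) :
    {H : Set ℍ | IsHorocycle H ∧ p ∈ H ∧ q ∈ H}.Finite := by
  obtain ⟨H₁, H₂, -, h⟩ := two_through hpq
  rw [h]
  exact Set.toFinite _

theorem finite_determined (P : Finset ℍ) : (determined P).Finite := by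
  classical
  have h1 : (⋃ p ∈ P, ⋃ q ∈ P.erase p, {H : Set ℍ | IsHorocycle H ∧ p ∈ H ∧ q ∈ H}).Finite := by
    refine P.finite_toSet.biUnion fun p _ => (P.erase p).finite_toSet.biUnion fun q hq => ?_
    rw [Finset.mem_coe, Finset.mem_erase] at hq
    exact finite_through (Ne.symm hq.1)
  refine h1.subset ?_
  rintro H ⟨hH, p, hp, q, hq, hpq, h1, h2⟩
  simp only [Set.mem_iUnion]
  exact ⟨p, hp, q, Finset.mem_erase.2 ⟨Ne.symm hpq, hq⟩, hH, h1, h2⟩

/-- The determined horocycles, as a finite set. -/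
noncomputable def DD (P : Finset ℍ) : Finset (Set ℍ) := (finite_determined P).toFinset

theorem mem_DD {P : Finset ℍ} {H : Set ℍ} : H ∈ DD P ↔
    IsHorocycle H ∧ ∃ p ∈ P, ∃ q ∈ P, p ≠ q ∧ p ∈ H ∧ q ∈ H := by
  unfold DD
  rw [Set.Finite.mem_toFinset]
  rfl

theorem card_DD (P : Finset ℍ) : #(DD P) = h P := by
  unfold DD h
  rw [Set.ncard_eq_toFinset_card _ (finite_determined P)]

open Classical in
/-- Two points of `P` are on exactly two determined horocycles. -/
theorem card_pair {P : Finset ℍ} {p q : ℍ} (hp : p ∈ P) (hq : q ∈ P) (hpq : p ≠ q) :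
    #{H ∈ DD P | p ∈ H ∧ q ∈ H} = 2 := by
  obtain ⟨H₁, H₂, hne, h⟩ := two_through hpq
  have e : {H ∈ DD P | p ∈ H ∧ q ∈ H} = {H₁, H₂} := by
    ext H
    have h1 : H ∈ {H : Set ℍ | IsHorocycle H ∧ p ∈ H ∧ q ∈ H} ↔ H ∈ ({H₁, H₂} : Set (Set ℍ)) := by
      rw [h]
    simp only [Set.mem_ofPred_eq, Set.mem_insert_iff, Set.mem_singleton_iff] at h1
    rw [Finset.mem_filter, Finset.mem_insert, Finset.mem_singleton, ← h1, mem_DD]
    constructor
    · rintro ⟨⟨h2, -⟩, h3⟩
      exact ⟨h2, h3⟩
    · rintro ⟨h2, h3⟩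
      exact ⟨⟨h2, p, hp, q, hq, hpq, h3.1, h3.2⟩, h3⟩
  rw [e, Finset.card_pair hne]

/-- The points of `P` on `H`. -/
noncomputable def on (P : Finset ℍ) (H : Set ℍ) : Finset ℍ := by
  classical exact P.filter fun z => z ∈ H

theorem mem_on {P : Finset ℍ} {H : Set ℍ} {z : ℍ} : z ∈ on P H ↔ z ∈ P ∧ z ∈ H := by
  classical
  unfold on
  rw [Finset.mem_filter]

theorem on_subset (P : Finset ℍ) (H : Set ℍ) : on P H ⊆ P := fun _ hz => (mem_on.1 hz).1

open Classical in
theorem two_le_on {P : Finset ℍ} {H : Set ℍ} (h : H ∈ DD P) : 2 ≤ #(on P H) := by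
  obtain ⟨-, p, hp, q, hq, hpq, h1, h2⟩ := mem_DD.1 h
  have : ({p, q} : Finset ℍ) ⊆ on P H := by
    intro z hz
    rw [Finset.mem_insert, Finset.mem_singleton] at hz
    rcases hz with rfl | rfl
    · exact mem_on.2 ⟨hp, h1⟩
    · exact mem_on.2 ⟨hq, h2⟩
  calc 2 = #({p, q} : Finset ℍ) := (Finset.card_pair hpq).symm
    _ ≤ _ := Finset.card_le_card this

open Classical in
theorem on_inter_le {P : Finset ℍ} {H H' : Set ℍ} (h : H ∈ DD P) (h' : H' ∈ DD P) (hne : H ≠ H') :
    #(on P H ∩ on P H') ≤ 2 := by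
  by_contra hcon
  rw [not_le] at hcon
  obtain ⟨p, hp, q, hq, r, hr, hpq, hpr, hqr⟩ := Finset.two_lt_card.1 hcon
  rw [Finset.mem_inter, mem_on, mem_on] at hp hq hr
  exact hne (hor_unique (mem_DD.1 h).1 (mem_DD.1 h').1 hpq hpr hqr hp.1.2 hq.1.2 hr.1.2
    hp.2.2 hq.2.2 hr.2.2)

open Classical in
/-- The double count at a point. -/
theorem sum_at {P : Finset ℍ} {p : ℍ} (hp : p ∈ P) :
    ∑ H ∈ DD P with p ∈ H, (#(on P H) - 1) = 2 * (#P - 1) := by
  have h1 : ∀ H ∈ (DD P).filter (fun H => p ∈ H), #(on P H) - 1 =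
      ∑ q ∈ P.erase p, if q ∈ H then 1 else 0 := by
    intro H hH
    rw [Finset.mem_filter] at hH
    rw [← Finset.card_erase_of_mem (mem_on.2 ⟨hp, hH.2⟩), Finset.card_eq_sum_ones,
      ← Finset.sum_filter]
    apply Finset.sum_congr _ (fun _ _ => rfl)
    ext z
    rw [Finset.mem_erase, mem_on, Finset.mem_filter, Finset.mem_erase]
    tauto
  rw [Finset.sum_congr rfl h1, Finset.sum_comm]
  have h2 : ∀ q ∈ P.erase p, (∑ H ∈ DD P with p ∈ H, if q ∈ H then 1 else 0) = 2 := by
    intro q hq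
    rw [Finset.mem_erase] at hq
    rw [← Finset.sum_filter, Finset.filter_filter, ← Finset.card_eq_sum_ones]
    exact card_pair hp hq.2 (Ne.symm hq.1)
  rw [Finset.sum_congr rfl h2, Finset.sum_const, Finset.card_erase_of_mem hp, smul_eq_mul]
  ring

end Pool.Agent.HoroS
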