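import Pool.Agent.HoroS.Two

/-!
# Three points with four horocycles, four points with six
-/

namespace Pool.Agent.HoroS

open Finset UpperHalfPlane

private theorem only_two {p q : ℍ} (hpq : p ≠ q) {K₁ K₂ : Set ℍ} (hK : K₁ ≠ K₂) (h1 : IsHorocycle K₁)
    (h2 : IsHorocycle K₂) (hp1 : p ∈ K₁) (hq1 : q ∈ K₁) (hp2 : p ∈ K₂) (hq2 : q ∈ K₂) {H : Set ℍ}
    (hH : IsHorocycle H) (hp : p ∈ H) (hq : q ∈ H) : H = K₁ ∨ H = K₂ := by
  obtain ⟨H₁, H₂, -, h⟩ := two_through hpq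
  have e1 : K₁ ∈ ({H₁, H₂} : Set (Set ℍ)) := by
    rw [← h]
    exact ⟨h1, hp1, hq1⟩
  have e2 : K₂ ∈ ({H₁, H₂} : Set (Set ℍ)) := by
    rw [← h]
    exact ⟨h2, hp2, hq2⟩
  have e3 : H ∈ ({H₁, H₂} : Set (Set ℍ)) := by
    rw [← h]
    exact ⟨hH, hp, hq⟩
  simp only [Set.mem_insert_iff, Set.mem_singleton_iff] at e1 e2 e3
  rcases e1 with rfl | rfl <;> rcases e2 with rfl | rfl
  · exact absurd rfl hK
  · exact e3
  · exact e3.symm
  · exact absurd rfl hK

private theorem circ_ne {x r x' r' : ℝ} (hr : 0 < r) (hr' : 0 < r') (hx : x ≠ x') : circ x r ≠ circ x' r' :=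
  fun h => hx (circ_inj hr hr' h).1

/-- The four horocycles. -/
private def four : Fin 4 → Set ℍ :=
  ![hline 1, circ (1 / 2) (5 / 8), circ 1 1, circ (3 / 2) (5 / 8)]

theorem up3 : ∃ P : Finset ℍ, #P = 3 ∧ h P ≤ 4 := by
  classical
  set p1 : ℍ := pt 0 1 one_pos with hp1
  set p2 : ℍ := pt 1 1 one_pos with hp2
  set p3 : ℍ := pt 2 1 one_pos with hp3
  have n12 : p1 ≠ p2 := by
    intro h
    have := congrArg UpperHalfPlane.re h
    simp only [hp1, hp2, pt_re] at this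
    linarith
  have n13 : p1 ≠ p3 := by
    intro h
    have := congrArg UpperHalfPlane.re h
    simp only [hp1, hp3, pt_re] at this
    linarith
  have n23 : p2 ≠ p3 := by
    intro h
    have := congrArg UpperHalfPlane.re h
    simp only [hp2, hp3, pt_re] at this
    linarith
  have o0 : IsHorocycle (hline 1) := Or.inl ⟨1, one_pos, rfl⟩
  have oc : ∀ x r : ℝ, 0 < r → IsHorocycle (circ x r) := fun x r hr => Or.inr ⟨x, r, hr, rfl⟩
  have r1 : (0 : ℝ) < 5 / 8 := by norm_num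
  have m0 : p1 ∈ hline 1 ∧ p2 ∈ hline 1 ∧ p3 ∈ hline 1 := ⟨rfl, rfl, rfl⟩
  have m1 : p1 ∈ circ (1 / 2) (5 / 8) ∧ p2 ∈ circ (1 / 2) (5 / 8) := by
    refine ⟨?_, ?_⟩ <;> rw [mem_circ] <;> simp only [hp1, hp2, pt_re, pt_im] <;> norm_num
  have m2 : p1 ∈ circ 1 1 ∧ p3 ∈ circ 1 1 := by
    refine ⟨?_, ?_⟩ <;> rw [mem_circ] <;> simp only [hp1, hp3, pt_re, pt_im] <;> norm_num
  have m3 : p2 ∈ circ (3 / 2) (5 / 8) ∧ p3 ∈ circ (3 / 2) (5 / 8) := by
    refine ⟨?_, ?_⟩ <;> rw [mem_circ] <;> simp only [hp2, hp3, pt_re, pt_im] <;> norm_num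
  have t12 : ∀ H : Set ℍ, IsHorocycle H → p1 ∈ H → p2 ∈ H → ∃ i, four i = H := by
    intro H hH h1 h2
    rcases only_two n12 (hline_ne_circ one_pos r1) o0 (oc _ _ r1) m0.1 m0.2.1 m1.1 m1.2 hH h1 h2 with rfl | rfl
    · exact ⟨0, rfl⟩
    · exact ⟨1, rfl⟩
  have t13 : ∀ H : Set ℍ, IsHorocycle H → p1 ∈ H → p3 ∈ H → ∃ i, four i = H := by
    intro H hH h1 h2
    rcases only_two n13 (hline_ne_circ one_pos one_pos) o0 (oc _ _ one_pos) m0.1 m0.2.2 m2.1 m2.2 hH h1 h2 with rfl | rfl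
    · exact ⟨0, rfl⟩
    · exact ⟨2, rfl⟩
  have t23 : ∀ H : Set ℍ, IsHorocycle H → p2 ∈ H → p3 ∈ H → ∃ i, four i = H := by
    intro H hH h1 h2
    rcases only_two n23 (hline_ne_circ one_pos r1) o0 (oc _ _ r1) m0.2.1 m0.2.2 m3.1 m3.2 hH h1 h2 with rfl | rfl
    · exact ⟨0, rfl⟩
    · exact ⟨3, rfl⟩
  refine ⟨{p1, p2, p3}, ?_, ?_⟩
  · rw [Finset.card_insert_of_notMem, Finset.card_pair n23]
    simp only [Finset.mem_insert, Finset.mem_singleton, not_or]
    exact ⟨n12, n13⟩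
  · have hsub : determined {p1, p2, p3} ⊆ four '' Set.univ := by
      rintro H ⟨hH, p, hp, q, hq, hpq, h1, h2⟩
      have : ∃ i, four i = H := by
        simp only [Finset.mem_insert, Finset.mem_singleton] at hp hq
        rcases hp with rfl | rfl | rfl <;> rcases hq with rfl | rfl | rfl <;>
          first
            | exact absurd rfl hpq
            | exact t12 H hH h1 h2
            | exact t12 H hH h2 h1
            | exact t13 H hH h1 h2
            | exact t13 H hH h2 h1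
            | exact t23 H hH h1 h2
            | exact t23 H hH h2 h1
      obtain ⟨i, hi⟩ := this
      exact ⟨i, trivial, hi⟩
    calc h {p1, p2, p3} ≤ (four '' Set.univ).ncard := Set.ncard_le_ncard hsub (Set.toFinite _)
      _ ≤ (Set.univ : Set (Fin 4)).ncard := Set.ncard_image_le (Set.toFinite _)
      _ = 4 := by rw [Set.ncard_univ, Nat.card_eq_fintype_card, Fintype.card_fin]

/-- The six horocycles. -/
private def six (c s : ℝ) : Fin 6 → Set ℍ :=
  ![hline 1, circ 0 (c ^ 2 / 2), circ s ((c + 1) / 2), circ (-s) ((c + 1) / 2), circ (c * s) ((c + c ^ 2) / 2),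
    circ (-(c * s)) ((c + c ^ 2) / 2)]

theorem up4 : ∃ P : Finset ℍ, #P = 4 ∧ h P ≤ 6 := by
  classical
  obtain ⟨c, hc1, hc⟩ : ∃ c : ℝ, 1 < c ∧ c ^ 2 = 4 * c + 1 := by
    refine ⟨2 + √5, ?_, ?_⟩
    · have := Real.sqrt_nonneg 5
      linarith
    · have := Real.sq_sqrt (show (0 : ℝ) ≤ 5 by norm_num)
      linear_combination this
  have hc0 : 0 < c := by linarith
  have hcc : c < c ^ 2 := by nlinarith
  obtain ⟨s, hs0, hs⟩ : ∃ s : ℝ, 0 < s ∧ s ^ 2 = c := ⟨√c, Real.sqrt_pos.2 hc0, Real.sq_sqrt hc0.le⟩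
  have hcs : 0 < c * s := by positivity
  set p1 : ℍ := pt (2 * s) 1 one_pos with hp1
  set p2 : ℍ := pt (-(2 * s)) 1 one_pos with hp2
  set p3 : ℍ := pt 0 1 one_pos with hp3
  set p4 : ℍ := pt 0 c hc0 with hp4
  have n12 : p1 ≠ p2 := by
    intro h
    have := congrArg UpperHalfPlane.re h
    simp only [hp1, hp2, pt_re] at this
    linarith
  have n13 : p1 ≠ p3 := by
    intro h
    have := congrArg UpperHalfPlane.re h
    simp only [hp1, hp3, pt_re] at this
    linarith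
  have n14 : p1 ≠ p4 := by
    intro h
    have := congrArg UpperHalfPlane.re h
    simp only [hp1, hp4, pt_re] at this
    linarith
  have n23 : p2 ≠ p3 := by
    intro h
    have := congrArg UpperHalfPlane.re h
    simp only [hp2, hp3, pt_re] at this
    linarith
  have n24 : p2 ≠ p4 := by
    intro h
    have := congrArg UpperHalfPlane.re h
    simp only [hp2, hp4, pt_re] at this
    linarith
  have n34 : p3 ≠ p4 := by
    intro h
    have := congrArg UpperHalfPlane.im h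
    simp only [hp3, hp4, pt_im] at this
    linarith
  -- the horocycles
  have o0 : IsHorocycle (hline 1) := Or.inl ⟨1, one_pos, rfl⟩
  have r1 : 0 < c ^ 2 / 2 := by positivity
  have r2 : 0 < (c + 1) / 2 := by positivity
  have r3 : 0 < (c + c ^ 2) / 2 := by positivity
  have r4 : 0 < (1 + c ^ 2) / 2 := by positivity
  have oc : ∀ x r : ℝ, 0 < r → IsHorocycle (circ x r) := fun x r hr => Or.inr ⟨x, r, hr, rfl⟩
  -- memberships
  have m0 : p1 ∈ hline 1 ∧ p2 ∈ hline 1 ∧ p3 ∈ hline 1 := ⟨rfl, rfl, rfl⟩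
  have m1 : p1 ∈ circ 0 (c ^ 2 / 2) ∧ p2 ∈ circ 0 (c ^ 2 / 2) := by
    refine ⟨?_, ?_⟩ <;> rw [mem_circ] <;> simp only [hp1, hp2, pt_re, pt_im]
    · linear_combination 4 * hs - hc
    · linear_combination 4 * hs - hc
  have m2 : p1 ∈ circ s ((c + 1) / 2) ∧ p3 ∈ circ s ((c + 1) / 2) ∧ p4 ∈ circ s ((c + 1) / 2) := by
    refine ⟨?_, ?_, ?_⟩ <;> rw [mem_circ] <;> simp only [hp1, hp3, hp4, pt_re, pt_im]
    · linear_combination hs
    · linear_combination hs
    · linear_combination hs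
  have m3 : p2 ∈ circ (-s) ((c + 1) / 2) ∧ p3 ∈ circ (-s) ((c + 1) / 2) ∧ p4 ∈ circ (-s) ((c + 1) / 2) := by
    refine ⟨?_, ?_, ?_⟩ <;> rw [mem_circ] <;> simp only [hp2, hp3, hp4, pt_re, pt_im]
    · linear_combination hs
    · linear_combination hs
    · linear_combination hs
  have m4 : p1 ∈ circ (c * s) ((c + c ^ 2) / 2) ∧ p4 ∈ circ (c * s) ((c + c ^ 2) / 2) := by
    refine ⟨?_, ?_⟩ <;> rw [mem_circ] <;> simp only [hp1, hp4, pt_re, pt_im]
    · linear_combination (2 - c) ^ 2 * hs + (c - 1) * hc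
    · linear_combination c ^ 2 * hs
  have m5 : p2 ∈ circ (-(c * s)) ((c + c ^ 2) / 2) ∧ p4 ∈ circ (-(c * s)) ((c + c ^ 2) / 2) := by
    refine ⟨?_, ?_⟩ <;> rw [mem_circ] <;> simp only [hp2, hp4, pt_re, pt_im]
    · linear_combination (2 - c) ^ 2 * hs + (c - 1) * hc
    · linear_combination c ^ 2 * hs
  -- the pairs
  have t12 : ∀ H : Set ℍ, IsHorocycle H → p1 ∈ H → p2 ∈ H → ∃ i, six c s i = H := by
    intro H hH h1 h2
    rcases only_two n12 (hline_ne_circ one_pos r1) o0 (oc _ _ r1) m0.1 m0.2.1 m1.1 m1.2 hH h1 h2 with rfl | rfl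
    · exact ⟨0, rfl⟩
    · exact ⟨1, rfl⟩
  have t13 : ∀ H : Set ℍ, IsHorocycle H → p1 ∈ H → p3 ∈ H → ∃ i, six c s i = H := by
    intro H hH h1 h2
    rcases only_two n13 (hline_ne_circ one_pos r2) o0 (oc _ _ r2) m0.1 m0.2.2 m2.1 m2.2.1 hH h1 h2 with rfl | rfl
    · exact ⟨0, rfl⟩
    · exact ⟨2, rfl⟩
  have t23 : ∀ H : Set ℍ, IsHorocycle H → p2 ∈ H → p3 ∈ H → ∃ i, six c s i = H := by
    intro H hH h1 h2
    rcases only_two n23 (hline_ne_circ one_pos r2) o0 (oc _ _ r2) m0.2.1 m0.2.2 m3.1 m3.2.1 hH h1 h2 with rfl | rfl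
    · exact ⟨0, rfl⟩
    · exact ⟨3, rfl⟩
  have t14 : ∀ H : Set ℍ, IsHorocycle H → p1 ∈ H → p4 ∈ H → ∃ i, six c s i = H := by
    intro H hH h1 h2
    rcases only_two n14 (circ_ne r2 r3 (show s ≠ c * s by nlinarith)) (oc _ _ r2) (oc _ _ r3) m2.1 m2.2.2 m4.1 m4.2
      hH h1 h2 with rfl | rfl
    · exact ⟨2, rfl⟩
    · exact ⟨4, rfl⟩
  have t24 : ∀ H : Set ℍ, IsHorocycle H → p2 ∈ H → p4 ∈ H → ∃ i, six c s i = H := by
    intro H hH h1 h2
    rcases only_two n24 (circ_ne r2 r3 (show -s ≠ -(c * s) by nlinarith)) (oc _ _ r2) (oc _ _ r3) m3.1 m3.2.2 m5.1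
      m5.2 hH h1 h2 with rfl | rfl
    · exact ⟨3, rfl⟩
    · exact ⟨5, rfl⟩
  have t34 : ∀ H : Set ℍ, IsHorocycle H → p3 ∈ H → p4 ∈ H → ∃ i, six c s i = H := by
    intro H hH h1 h2
    rcases only_two n34 (circ_ne r2 r2 (show s ≠ -s by linarith)) (oc _ _ r2) (oc _ _ r2) m2.2.1 m2.2.2 m3.2.1
      m3.2.2 hH h1 h2 with rfl | rfl
    · exact ⟨2, rfl⟩
    · exact ⟨3, rfl⟩
  refine ⟨{p1, p2, p3, p4}, ?_, ?_⟩
  · rw [Finset.card_insert_of_notMem, Finset.card_insert_of_notMem, Finset.card_pair n34]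
    · simp only [Finset.mem_insert, Finset.mem_singleton, not_or]
      exact ⟨n23, n24⟩
    · simp only [Finset.mem_insert, Finset.mem_singleton, not_or]
      exact ⟨n12, n13, n14⟩
  · have hsub : determined {p1, p2, p3, p4} ⊆ six c s '' Set.univ := by
      rintro H ⟨hH, p, hp, q, hq, hpq, h1, h2⟩
      have : ∃ i, six c s i = H := by
        simp only [Finset.mem_insert, Finset.mem_singleton] at hp hq
        rcases hp with rfl | rfl | rfl | rfl <;> rcases hq with rfl | rfl | rfl | rfl <;>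
          first
            | exact absurd rfl hpq
            | exact t12 H hH h1 h2
            | exact t12 H hH h2 h1
            | exact t13 H hH h1 h2
            | exact t13 H hH h2 h1
            | exact t14 H hH h1 h2
            | exact t14 H hH h2 h1
            | exact t23 H hH h1 h2
            | exact t23 H hH h2 h1
            | exact t24 H hH h1 h2
            | exact t24 H hH h2 h1
            | exact t34 H hH h1 h2
            | exact t34 H hH h2 h1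
      obtain ⟨i, hi⟩ := this
      exact ⟨i, trivial, hi⟩
    calc h {p1, p2, p3, p4} ≤ (six c s '' Set.univ).ncard := Set.ncard_le_ncard hsub (Set.toFinite _)
      _ ≤ (Set.univ : Set (Fin 6)).ncard := Set.ncard_image_le (Set.toFinite _)
      _ = 6 := by rw [Set.ncard_univ, Nat.card_eq_fintype_card, Fintype.card_fin]

end Pool.Agent.HoroS
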