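import Pool.Agent.HoroS.Two

/-!
# Five points that determine at most eight horocycles

`P = {(a, 1), (-a, 1), (0, 1), (0, c), (0, d)}` with `c = 2 + √5`, `a ^ 2 = 4 c`, `d = 1 + a ^ 2 = c ^ 2 = 9 + 4 √5` (note
`c ^ 2 = 4 c + 1`). The eight horocycles: `hline 1`; `circ 0 (d / 2)` (through `(±a, 1)`, `(0, d)`);
`circ (±√c) ((c + 1) / 2)` (through `(±a, 1)`, `(0, 1)`, `(0, c)`); `circ (±c √c) ((c + d) / 2)` (through `(±a, 1)`, `(0, c)`,
`(0, d)`); `circ (±c) ((1 + d) / 2)` (through `(0, 1)`, `(0, d)`). See `determined_subset` in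
`Pool/Agent/Results/MP_d7f0d3_co/GoldenChain.lean` for the method. (Sign check: `circ (a/2) ..` and `√c = a / 2`.)
-/

namespace Pool.Agent.HoroS

open Finset UpperHalfPlane

private theorem only_two {p q : ℍ} (hpq : p ≠ q) {K₁ K₂ : Set ℍ} (hK : K₁ ≠ K₂) (h1 : IsHorocycle K₁)
    (h2 : IsHorocycle K₂) (hp1 : p ∈ K₁) (hq1 : q ∈ K₁) (hp2 : p ∈ K₂) (hq2 : q ∈ K₂) {H : Set ℍ}
    (hH : IsHorocycle H) (hp : p ∈ H) (hq : q ∈ H) : H = K₁ ∨ H = K₂ := by
  obtain ⟨H₁, H₂, -, h⟩ := two_through hpq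
  have e1 : K₁ ∈ ({H₁, H₂} : Set (Set ℍ)) := by
    rw [← h]
    exact ⟨h1, hp1, hq1⟩
  have e2 : K₂ ∈ ({H₁, H₂} : Set (Set ℍ)) := by
    rw [← h]
    exact ⟨h2, hp2, hq2⟩
  have e3 : H ∈ ({H₁, H₂} : Set (Set ℍ)) := by
    rw [← h]
    exact ⟨hH, hp, hq⟩
  simp only [Set.mem_insert_iff, Set.mem_singleton_iff] at e1 e2 e3
  rcases e1 with rfl | rfl <;> rcases e2 with rfl | rfl
  · exact absurd rfl hK
  · exact e3
  · exact e3.symm
  · exact absurd rfl hK

private theorem circ_ne {x r x' r' : ℝ} (hr : 0 < r) (hr' : 0 < r') (hx : x ≠ x') : circ x r ≠ circ x' r' :=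
  fun h => hx (circ_inj hr hr' h).1

/-- The eight horocycles. -/
private def eight (c s : ℝ) : Fin 8 → Set ℍ :=
  ![hline 1, circ 0 (c ^ 2 / 2), circ s ((c + 1) / 2), circ (-s) ((c + 1) / 2), circ (c * s) ((c + c ^ 2) / 2),
    circ (-(c * s)) ((c + c ^ 2) / 2), circ c ((1 + c ^ 2) / 2), circ (-c) ((1 + c ^ 2) / 2)]

theorem up5 : ∃ P : Finset ℍ, #P = 5 ∧ h P ≤ 8 := by
  classical
  obtain ⟨c, hc1, hc⟩ : ∃ c : ℝ, 1 < c ∧ c ^ 2 = 4 * c + 1 := by
    refine ⟨2 + √5, ?_, ?_⟩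
    · have := Real.sqrt_nonneg 5
      linarith
    · have := Real.sq_sqrt (show (0 : ℝ) ≤ 5 by norm_num)
      linear_combination this
  have hc0 : 0 < c := by linarith
  have hcc : c < c ^ 2 := by nlinarith
  obtain ⟨s, hs0, hs⟩ : ∃ s : ℝ, 0 < s ∧ s ^ 2 = c := ⟨√c, Real.sqrt_pos.2 hc0, Real.sq_sqrt hc0.le⟩
  have hcs : 0 < c * s := by positivity
  set p1 : ℍ := pt (2 * s) 1 one_pos with hp1
  set p2 : ℍ := pt (-(2 * s)) 1 one_pos with hp2
  set p3 : ℍ := pt 0 1 one_pos with hp3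
  set p4 : ℍ := pt 0 c hc0 with hp4
  set p5 : ℍ := pt 0 (c ^ 2) (by positivity) with hp5
  have n12 : p1 ≠ p2 := by
    intro h
    have := congrArg UpperHalfPlane.re h
    simp only [hp1, hp2, pt_re] at this
    linarith
  have n13 : p1 ≠ p3 := by
    intro h
    have := congrArg UpperHalfPlane.re h
    simp only [hp1, hp3, pt_re] at this
    linarith
  have n14 : p1 ≠ p4 := by
    intro h
    have := congrArg UpperHalfPlane.re h
    simp only [hp1, hp4, pt_re] at this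
    linarith
  have n15 : p1 ≠ p5 := by
    intro h
    have := congrArg UpperHalfPlane.re h
    simp only [hp1, hp5, pt_re] at this
    linarith
  have n23 : p2 ≠ p3 := by
    intro h
    have := congrArg UpperHalfPlane.re h
    simp only [hp2, hp3, pt_re] at this
    linarith
  have n24 : p2 ≠ p4 := by
    intro h
    have := congrArg UpperHalfPlane.re h
    simp only [hp2, hp4, pt_re] at this
    linarith
  have n25 : p2 ≠ p5 := by
    intro h
    have := congrArg UpperHalfPlane.re h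
    simp only [hp2, hp5, pt_re] at this
    linarith
  have n34 : p3 ≠ p4 := by
    intro h
    have := congrArg UpperHalfPlane.im h
    simp only [hp3, hp4, pt_im] at this
    linarith
  have n35 : p3 ≠ p5 := by
    intro h
    have := congrArg UpperHalfPlane.im h
    simp only [hp3, hp5, pt_im] at this
    linarith
  have n45 : p4 ≠ p5 := by
    intro h
    have := congrArg UpperHalfPlane.im h
    simp only [hp4, hp5, pt_im] at this
    linarith
  -- the horocycles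
  have o0 : IsHorocycle (hline 1) := Or.inl ⟨1, one_pos, rfl⟩
  have r1 : 0 < c ^ 2 / 2 := by positivity
  have r2 : 0 < (c + 1) / 2 := by positivity
  have r3 : 0 < (c + c ^ 2) / 2 := by positivity
  have r4 : 0 < (1 + c ^ 2) / 2 := by positivity
  have oc : ∀ x r : ℝ, 0 < r → IsHorocycle (circ x r) := fun x r hr => Or.inr ⟨x, r, hr, rfl⟩
  -- memberships
  have m0 : p1 ∈ hline 1 ∧ p2 ∈ hline 1 ∧ p3 ∈ hline 1 := ⟨rfl, rfl, rfl⟩
  have m1 : p1 ∈ circ 0 (c ^ 2 / 2) ∧ p2 ∈ circ 0 (c ^ 2 / 2) ∧ p5 ∈ circ 0 (c ^ 2 / 2) := by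
    refine ⟨?_, ?_, ?_⟩ <;> rw [mem_circ] <;> simp only [hp1, hp2, hp5, pt_re, pt_im]
    · linear_combination 4 * hs - hc
    · linear_combination 4 * hs - hc
    · ring
  have m2 : p1 ∈ circ s ((c + 1) / 2) ∧ p3 ∈ circ s ((c + 1) / 2) ∧ p4 ∈ circ s ((c + 1) / 2) := by
    refine ⟨?_, ?_, ?_⟩ <;> rw [mem_circ] <;> simp only [hp1, hp3, hp4, pt_re, pt_im]
    · linear_combination hs
    · linear_combination hs
    · linear_combination hs
  have m3 : p2 ∈ circ (-s) ((c + 1) / 2) ∧ p3 ∈ circ (-s) ((c + 1) / 2) ∧ p4 ∈ circ (-s) ((c + 1) / 2) := by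
    refine ⟨?_, ?_, ?_⟩ <;> rw [mem_circ] <;> simp only [hp2, hp3, hp4, pt_re, pt_im]
    · linear_combination hs
    · linear_combination hs
    · linear_combination hs
  have m4 : p1 ∈ circ (c * s) ((c + c ^ 2) / 2) ∧ p4 ∈ circ (c * s) ((c + c ^ 2) / 2) ∧
      p5 ∈ circ (c * s) ((c + c ^ 2) / 2) := by
    refine ⟨?_, ?_, ?_⟩ <;> rw [mem_circ] <;> simp only [hp1, hp4, hp5, pt_re, pt_im]
    · linear_combination (2 - c) ^ 2 * hs + (c - 1) * hc
    · linear_combination c ^ 2 * hs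
    · linear_combination c ^ 2 * hs
  have m5 : p2 ∈ circ (-(c * s)) ((c + c ^ 2) / 2) ∧ p4 ∈ circ (-(c * s)) ((c + c ^ 2) / 2) ∧
      p5 ∈ circ (-(c * s)) ((c + c ^ 2) / 2) := by
    refine ⟨?_, ?_, ?_⟩ <;> rw [mem_circ] <;> simp only [hp2, hp4, hp5, pt_re, pt_im]
    · linear_combination (2 - c) ^ 2 * hs + (c - 1) * hc
    · linear_combination c ^ 2 * hs
    · linear_combination c ^ 2 * hs
  have m6 : p3 ∈ circ c ((1 + c ^ 2) / 2) ∧ p5 ∈ circ c ((1 + c ^ 2) / 2) := by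
    refine ⟨?_, ?_⟩ <;> rw [mem_circ] <;> simp only [hp3, hp5, pt_re, pt_im] <;> ring
  have m7 : p3 ∈ circ (-c) ((1 + c ^ 2) / 2) ∧ p5 ∈ circ (-c) ((1 + c ^ 2) / 2) := by
    refine ⟨?_, ?_⟩ <;> rw [mem_circ] <;> simp only [hp3, hp5, pt_re, pt_im] <;> ring
  -- the pairs
  have t12 : ∀ H : Set ℍ, IsHorocycle H → p1 ∈ H → p2 ∈ H → ∃ i, eight c s i = H := by
    intro H hH h1 h2
    rcases only_two n12 (hline_ne_circ one_pos r1) o0 (oc _ _ r1) m0.1 m0.2.1 m1.1 m1.2.1 hH h1 h2 with rfl | rfl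
    · exact ⟨0, rfl⟩
    · exact ⟨1, rfl⟩
  have t13 : ∀ H : Set ℍ, IsHorocycle H → p1 ∈ H → p3 ∈ H → ∃ i, eight c s i = H := by
    intro H hH h1 h2
    rcases only_two n13 (hline_ne_circ one_pos r2) o0 (oc _ _ r2) m0.1 m0.2.2 m2.1 m2.2.1 hH h1 h2 with rfl | rfl
    · exact ⟨0, rfl⟩
    · exact ⟨2, rfl⟩
  have t23 : ∀ H : Set ℍ, IsHorocycle H → p2 ∈ H → p3 ∈ H → ∃ i, eight c s i = H := by
    intro H hH h1 h2
    rcases only_two n23 (hline_ne_circ one_pos r2) o0 (oc _ _ r2) m0.2.1 m0.2.2 m3.1 m3.2.1 hH h1 h2 with rfl | rfl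
    · exact ⟨0, rfl⟩
    · exact ⟨3, rfl⟩
  have t14 : ∀ H : Set ℍ, IsHorocycle H → p1 ∈ H → p4 ∈ H → ∃ i, eight c s i = H := by
    intro H hH h1 h2
    rcases only_two n14 (circ_ne r2 r3 (show s ≠ c * s by nlinarith)) (oc _ _ r2) (oc _ _ r3) m2.1 m2.2.2 m4.1 m4.2.1
      hH h1 h2 with rfl | rfl
    · exact ⟨2, rfl⟩
    · exact ⟨4, rfl⟩
  have t24 : ∀ H : Set ℍ, IsHorocycle H → p2 ∈ H → p4 ∈ H → ∃ i, eight c s i = H := by
    intro H hH h1 h2
    rcases only_two n24 (circ_ne r2 r3 (show -s ≠ -(c * s) by nlinarith)) (oc _ _ r2) (oc _ _ r3) m3.1 m3.2.2 m5.1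
      m5.2.1 hH h1 h2 with rfl | rfl
    · exact ⟨3, rfl⟩
    · exact ⟨5, rfl⟩
  have t15 : ∀ H : Set ℍ, IsHorocycle H → p1 ∈ H → p5 ∈ H → ∃ i, eight c s i = H := by
    intro H hH h1 h2
    rcases only_two n15 (circ_ne r1 r3 (show (0 : ℝ) ≠ c * s from hcs.ne)) (oc _ _ r1) (oc _ _ r3) m1.1 m1.2.2 m4.1
      m4.2.2 hH h1 h2 with rfl | rfl
    · exact ⟨1, rfl⟩
    · exact ⟨4, rfl⟩
  have t25 : ∀ H : Set ℍ, IsHorocycle H → p2 ∈ H → p5 ∈ H → ∃ i, eight c s i = H := by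
    intro H hH h1 h2
    rcases only_two n25 (circ_ne r1 r3 (show (0 : ℝ) ≠ -(c * s) by linarith)) (oc _ _ r1) (oc _ _ r3) m1.2.1 m1.2.2
      m5.1 m5.2.2 hH h1 h2 with rfl | rfl
    · exact ⟨1, rfl⟩
    · exact ⟨5, rfl⟩
  have t34 : ∀ H : Set ℍ, IsHorocycle H → p3 ∈ H → p4 ∈ H → ∃ i, eight c s i = H := by
    intro H hH h1 h2
    rcases only_two n34 (circ_ne r2 r2 (show s ≠ -s by linarith)) (oc _ _ r2) (oc _ _ r2) m2.2.1 m2.2.2 m3.2.1
      m3.2.2 hH h1 h2 with rfl | rfl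
    · exact ⟨2, rfl⟩
    · exact ⟨3, rfl⟩
  have t35 : ∀ H : Set ℍ, IsHorocycle H → p3 ∈ H → p5 ∈ H → ∃ i, eight c s i = H := by
    intro H hH h1 h2
    rcases only_two n35 (circ_ne r4 r4 (show c ≠ -c by linarith)) (oc _ _ r4) (oc _ _ r4) m6.1 m6.2 m7.1
      m7.2 hH h1 h2 with rfl | rfl
    · exact ⟨6, rfl⟩
    · exact ⟨7, rfl⟩
  have t45 : ∀ H : Set ℍ, IsHorocycle H → p4 ∈ H → p5 ∈ H → ∃ i, eight c s i = H := by
    intro H hH h1 h2
    rcases only_two n45 (circ_ne r3 r3 (show c * s ≠ -(c * s) by linarith)) (oc _ _ r3) (oc _ _ r3) m4.2.1 m4.2.2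
      m5.2.1 m5.2.2 hH h1 h2 with rfl | rfl
    · exact ⟨4, rfl⟩
    · exact ⟨5, rfl⟩
  refine ⟨{p1, p2, p3, p4, p5}, ?_, ?_⟩
  · rw [Finset.card_insert_of_notMem, Finset.card_insert_of_notMem, Finset.card_insert_of_notMem,
      Finset.card_pair n45]
    · simp only [Finset.mem_insert, Finset.mem_singleton, not_or]
      exact ⟨n34, n35⟩
    · simp only [Finset.mem_insert, Finset.mem_singleton, not_or]
      exact ⟨n23, n24, n25⟩
    · simp only [Finset.mem_insert, Finset.mem_singleton, not_or]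
      exact ⟨n12, n13, n14, n15⟩
  · have hsub : determined {p1, p2, p3, p4, p5} ⊆ eight c s '' Set.univ := by
      rintro H ⟨hH, p, hp, q, hq, hpq, h1, h2⟩
      have : ∃ i, eight c s i = H := by
        simp only [Finset.mem_insert, Finset.mem_singleton] at hp hq
        rcases hp with rfl | rfl | rfl | rfl | rfl <;> rcases hq with rfl | rfl | rfl | rfl | rfl <;>
          first
            | exact absurd rfl hpq
            | exact t12 H hH h1 h2
            | exact t12 H hH h2 h1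
            | exact t13 H hH h1 h2
            | exact t13 H hH h2 h1
            | exact t14 H hH h1 h2
            | exact t14 H hH h2 h1
            | exact t15 H hH h1 h2
            | exact t15 H hH h2 h1
            | exact t23 H hH h1 h2
            | exact t23 H hH h2 h1
            | exact t24 H hH h1 h2
            | exact t24 H hH h2 h1
            | exact t25 H hH h1 h2
            | exact t25 H hH h2 h1
            | exact t34 H hH h1 h2
            | exact t34 H hH h2 h1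
            | exact t35 H hH h1 h2
            | exact t35 H hH h2 h1
            | exact t45 H hH h1 h2
            | exact t45 H hH h2 h1
      obtain ⟨i, hi⟩ := this
      exact ⟨i, trivial, hi⟩
    calc h {p1, p2, p3, p4, p5} ≤ (eight c s '' Set.univ).ncard := Set.ncard_le_ncard hsub (Set.toFinite _)
      _ ≤ (Set.univ : Set (Fin 8)).ncard := Set.ncard_image_le (Set.toFinite _)
      _ = 8 := by rw [Set.ncard_univ, Nat.card_eq_fintype_card, Fintype.card_fin]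

end Pool.Agent.HoroS
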