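import Pool.Agent.HoroS.Two

/-!
# Six points that determine at most eleven horocycles

Let `k > 1` be a root of `8 k ^ 3 - 12 k - 3` (between `1.3` and `1.4`), `k' = k - 1 / (2 k + 1)` (`> 1`), `b ^ 2 = 2 / (k - 1)`,
`a = (2 k + 1) b`, `p = (k + 1) / (k - 1)`, `q = (k' + 1) / (k' - 1)`. `P = {(±a, 1), (±b, 1), (0, p), (0, q)}`. For
reals `x`, `y` let `hor2 x y = circ ((x + y) / 2) ((1 + ((x - y) / 2) ^ 2) / 2)`, the circle through `(x, 1)`, `(y, 1)`. The point
`(0, p)` is on it iff `x ^ 2 + y ^ 2 - 2 k x y = 4 p`, `(0, q)` iff `x ^ 2 + y ^ 2 - 2 k' x y = 4 q`. For given `x` the two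
solutions `y`, `y'` have `y + y' = 2 k x` (resp. `2 k' x`). Neighbours for `p`: of `a`: `b` and `s = 2 k a - b`; of `b`: `a`
and `-b`. For `q`: of `a`: `-b` and `2 k' a + b = s` (by `(k - k') a = b`); of `b`: `-a` and `t = 2 k' b + a`; same with signs
changed. The 11 horocycles: `hline 1`, `hor2 a b`, `hor2 (-a) (-b)`, `hor2 a (-b)`, `hor2 (-a) b`, `hor2 a (-a)`,
`hor2 b (-b)`, `hor2 a s`, `hor2 (-a) (-s)`, `hor2 b t`, `hor2 (-b) (-t)`. Through `(0, p)`, `(0, q)`: `2 r = p + q`,
`x ^ 2 = p q`: these are `hor2 a s` and `hor2 (-a) (-s)` (both contain `(0, p)` and `(0, q)`). See `determined_subset` in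
`Pool/Agent/Results/MP_d7f0d3_co/GoldenChain.lean` for the method.
(Numerically: k = 1.33.., b = 2.44.., a = 8.97.., p = 6.98.., q = 33.3...)
-/

namespace Pool.Agent.HoroS

open Finset UpperHalfPlane

/-- The point `(u, 1)`. -/
private noncomputable def R (u : ℝ) : ℍ := pt u 1 one_pos

/-- The circle through `(x, 1)` and `(y, 1)`. -/
private noncomputable def hor2 (x y : ℝ) : Set ℍ := circ ((x + y) / 2) ((1 + ((x - y) / 2) ^ 2) / 2)

private theorem hor2_comm (x y : ℝ) : hor2 x y = hor2 y x := by
  unfold hor2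
  rw [add_comm x y, ← neg_sub y x, neg_div, neg_sq]

private theorem circ_row {u v x r : ℝ} (huv : u ≠ v) (hu : R u ∈ circ x r) (hv : R v ∈ circ x r) :
    circ x r = hor2 u v := by
  rw [mem_circ] at hu hv
  simp only [R, pt_re, pt_im] at hu hv
  have h1 : (u - v) * (u + v - 2 * x) = 0 := by linear_combination hu - hv
  have h2 : u + v - 2 * x = 0 := (mul_eq_zero.1 h1).resolve_left (sub_ne_zero.2 huv)
  have hx : x = (u + v) / 2 := by linarith
  have hr : r = (1 + ((u - v) / 2) ^ 2) / 2 := by
    subst hx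
    linear_combination (-1 / 2) * hu
  rw [hor2, ← hx, ← hr]

private theorem circ_reflect {u x r : ℝ} (hu : R u ∈ circ x r) : circ x r = hor2 u (2 * x - u) := by
  rw [mem_circ] at hu
  simp only [R, pt_re, pt_im] at hu
  have hx : x = (u + (2 * x - u)) / 2 := by ring
  have hr : r = (1 + ((u - (2 * x - u)) / 2) ^ 2) / 2 := by
    linear_combination (-1 / 2) * hu
  rw [hor2, ← hx, ← hr]

/-- The two neighbours of `u` for the point `(0, w)`. -/
private theorem neigh {u x r w k y₁ y₂ : ℝ} (hw : 0 < w) (hw1 : w ≠ 1) (hk : (w - 1) * k = w + 1)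
    (hu : R u ∈ circ x r) (h : pt 0 w hw ∈ circ x r) (h1 : y₁ + y₂ = 2 * k * u)
    (h2 : y₁ * y₂ = u ^ 2 - 4 * w) : circ x r = hor2 u y₁ ∨ circ x r = hor2 u y₂ := by
  have e := circ_reflect hu
  rw [mem_circ] at hu h
  simp only [R, pt_re, pt_im] at hu h
  have h3 : (w - 1) * ((2 * x - u - y₁) * (2 * x - u - y₂)) = 0 := by
    linear_combination (-4) * h + 4 * w * hu + 2 * u * (2 * x - u) * (-1) * hk -
      (w - 1) * (2 * x - u) * h1 + (w - 1) * h2
  have h4 := (mul_eq_zero.1 h3).resolve_left (sub_ne_zero.2 hw1)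
  rcases mul_eq_zero.1 h4 with h5 | h5
  · left
    rw [e, sub_eq_zero.1 h5]
  · right
    rw [e, sub_eq_zero.1 h5]

private theorem exists_k : ∃ k : ℝ, 1 < k ∧ 8 * k ^ 3 - 12 * k - 3 = 0 := by
  have hf : ContinuousOn (fun k : ℝ => 8 * k ^ 3 - 12 * k - 3) (Set.Icc 1 2) := by fun_prop
  have h1 := intermediate_value_Icc (by norm_num : (1 : ℝ) ≤ 2) hf
  obtain ⟨k, hk, h2⟩ := h1 (show (0 : ℝ) ∈ Set.Icc _ _ by constructor <;> norm_num)
  refine ⟨k, lt_of_le_of_ne hk.1 ?_, h2⟩
  rintro rfl
  norm_num at h2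

/-- The eleven horocycles. -/
private noncomputable def eleven (a b s t : ℝ) : Fin 11 → Set ℍ :=
  ![hline 1, hor2 a b, hor2 (-a) (-b), hor2 a (-b), hor2 (-a) b, hor2 a (-a), hor2 b (-b), hor2 a s,
    hor2 (-a) (-s), hor2 b t, hor2 (-b) (-t)]

theorem up6 : ∃ P : Finset ℍ, #P = 6 ∧ h P ≤ 11 := by
  classical
  obtain ⟨k, hk1, hk⟩ := exists_k
  have hk0 : 0 < k - 1 := by linarith
  obtain ⟨b, hb0, hb⟩ : ∃ b : ℝ, 0 < b ∧ b ^ 2 * (k - 1) = 2 := by
    refine ⟨√(2 / (k - 1)), Real.sqrt_pos.2 (by positivity), ?_⟩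
    rw [Real.sq_sqrt (by positivity)]
    field_simp
  obtain ⟨k', hk'⟩ : ∃ k' : ℝ, (2 * k + 1) * k' = (2 * k - 1) * (k + 1) := by
    have : 2 * k + 1 ≠ 0 := by positivity
    exact ⟨(2 * k - 1) * (k + 1) / (2 * k + 1), by field_simp⟩
  obtain ⟨a, ha⟩ : ∃ a : ℝ, a = (2 * k + 1) * b := ⟨_, rfl⟩
  obtain ⟨p, hp⟩ : ∃ p : ℝ, p = (k + 1) * b ^ 2 / 2 := ⟨_, rfl⟩
  obtain ⟨q, hq⟩ : ∃ q : ℝ, q = k * (4 * k + 3) * b ^ 2 / 2 := ⟨_, rfl⟩
  obtain ⟨s, hs⟩ : ∃ s : ℝ, s = 2 * k * a - b := ⟨_, rfl⟩
  obtain ⟨t, ht⟩ : ∃ t : ℝ, t = 2 * k' * b + a := ⟨_, rfl⟩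
  have hb2 : 0 < b ^ 2 := by positivity
  have hab : b < a := by
    rw [ha]
    nlinarith
  have hp1 : 1 < p := by
    have h1 : p * (k - 1) = k + 1 := by
      rw [hp]
      linear_combination (k + 1) / 2 * hb
    by_contra h
    have : p * (k - 1) ≤ 1 * (k - 1) := mul_le_mul_of_nonneg_right (not_lt.1 h) hk0.le
    linarith
  have hpq : p < q := by
    rw [hp, hq]
    have : (k + 1) < k * (4 * k + 3) := by nlinarith
    nlinarith
  have hp0 : 0 < p := by linarith
  have hq0 : 0 < q := by linarith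
  have hkp : (p - 1) * k = p + 1 := by
    rw [hp]
    linear_combination (k + 1) / 2 * hb
  have hkq : (q - 1) * k' = q + 1 := by
    have h1 : (2 * k + 1) * (k - 1) * ((q - 1) * k' - (q + 1)) = 0 := by
      have h2 : q * (k - 1) = k * (4 * k + 3) := by
        rw [hq]
        linear_combination k * (4 * k + 3) / 2 * hb
      linear_combination (q - 1) * (k - 1) * hk' + ((2 * k - 1) * (k + 1) - (2 * k + 1)) * h2 + k * hk
    have h3 : (2 * k + 1) * (k - 1) ≠ 0 := by
      have : 0 < 2 * k + 1 := by linarith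
      positivity
    have := (mul_eq_zero.1 h1).resolve_left h3
    linarith
  -- the relations between the neighbours
  have e1 : b * s = a ^ 2 - 4 * p := by
    rw [hs, hp, ha]
    ring
  have e2 : a * (-b) = b ^ 2 - 4 * p := by
    rw [hp, ha]
    ring
  have e3 : (-b) * s = a ^ 2 - 4 * q := by
    rw [hs, hq, ha]
    ring
  have e4 : (-a) * t = b ^ 2 - 4 * q := by
    rw [ht, hq, ha]
    linear_combination (-2) * b ^ 2 * hk'
  have e5 : a + -b = 2 * k * b := by
    rw [ha]
    ring
  have e6 : -b + s = 2 * k' * a := by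
    rw [hs, ha]
    linear_combination (-2) * b * hk'
  set A : ℍ := pt 0 p hp0 with hA
  set B' : ℍ := pt 0 q hq0 with hB
  set P : Finset ℍ := {R a, R (-a), R b, R (-b), A, B'} with hP
  have hRinj : ∀ u v : ℝ, R u = R v → u = v := by
    intro u v h
    have := congrArg UpperHalfPlane.re h
    simpa [R] using this
  have hRA : ∀ u : ℝ, R u ≠ A := by
    intro u h
    have := congrArg UpperHalfPlane.im h
    simp only [R, hA, pt_im] at this
    linarith
  have hRB : ∀ u : ℝ, R u ≠ B' := by
    intro u h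
    have := congrArg UpperHalfPlane.im h
    simp only [R, hB, pt_im] at this
    linarith
  have hAB : A ≠ B' := by
    intro h
    have := congrArg UpperHalfPlane.im h
    simp only [hA, hB, pt_im] at this
    linarith
  have n1 : a ≠ -a := by intro h; linarith
  have n2 : a ≠ b := by intro h; linarith
  have n3 : a ≠ -b := by intro h; linarith
  have n4 : -a ≠ b := by intro h; linarith
  have n5 : -a ≠ -b := by intro h; linarith
  have n6 : b ≠ -b := by intro h; linarith
  refine ⟨P, ?_, ?_⟩
  · rw [hP, card_insert_of_notMem, card_insert_of_notMem, card_insert_of_notMem, card_insert_of_notMem,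
      Finset.card_pair hAB]
    · simp only [mem_insert, mem_singleton, not_or]
      exact ⟨hRA _, hRB _⟩
    · simp only [mem_insert, mem_singleton, not_or]
      exact ⟨fun h => n6 (hRinj _ _ h), hRA _, hRB _⟩
    · simp only [mem_insert, mem_singleton, not_or]
      exact ⟨fun h => n4 (hRinj _ _ h), fun h => n5 (hRinj _ _ h), hRA _, hRB _⟩
    · simp only [mem_insert, mem_singleton, not_or]
      exact ⟨fun h => n1 (hRinj _ _ h), fun h => n2 (hRinj _ _ h), fun h => n3 (hRinj _ _ h), hRA _, hRB _⟩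
  · -- every determined horocycle is in the list
    have m0 : hline 1 ∈ Set.range (eleven a b s t) := ⟨0, rfl⟩
    have m1 : hor2 a b ∈ Set.range (eleven a b s t) := ⟨1, rfl⟩
    have m2 : hor2 (-a) (-b) ∈ Set.range (eleven a b s t) := ⟨2, rfl⟩
    have m3 : hor2 a (-b) ∈ Set.range (eleven a b s t) := ⟨3, rfl⟩
    have m4 : hor2 (-a) b ∈ Set.range (eleven a b s t) := ⟨4, rfl⟩
    have m5 : hor2 a (-a) ∈ Set.range (eleven a b s t) := ⟨5, rfl⟩
    have m6 : hor2 b (-b) ∈ Set.range (eleven a b s t) := ⟨6, rfl⟩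
    have m7 : hor2 a s ∈ Set.range (eleven a b s t) := ⟨7, rfl⟩
    have m8 : hor2 (-a) (-s) ∈ Set.range (eleven a b s t) := ⟨8, rfl⟩
    have m9 : hor2 b t ∈ Set.range (eleven a b s t) := ⟨9, rfl⟩
    have m10 : hor2 (-b) (-t) ∈ Set.range (eleven a b s t) := ⟨10, rfl⟩
    -- two points of the row
    have c1 : ∀ u v x r : ℝ, (u = a ∨ u = -a ∨ u = b ∨ u = -b) → (v = a ∨ v = -a ∨ v = b ∨ v = -b) →
        u ≠ v → R u ∈ circ x r → R v ∈ circ x r → circ x r ∈ Set.range (eleven a b s t) := by
      intro u v x r hu hv huv h1 h2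
      rw [circ_row huv h1 h2]
      rcases hu with rfl | rfl | rfl | rfl <;> rcases hv with rfl | rfl | rfl | rfl
      · exact absurd rfl huv
      · exact m5
      · exact m1
      · exact m3
      · rw [hor2_comm]; exact m5
      · exact absurd rfl huv
      · exact m4
      · exact m2
      · rw [hor2_comm]; exact m1
      · rw [hor2_comm]; exact m4
      · exact absurd rfl huv
      · exact m6
      · rw [hor2_comm]; exact m3
      · rw [hor2_comm]; exact m2
      · rw [hor2_comm]; exact m6
      · exact absurd rfl huv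
    -- a point of the row and `A`
    have c2 : ∀ u x r : ℝ, (u = a ∨ u = -a ∨ u = b ∨ u = -b) → R u ∈ circ x r → A ∈ circ x r →
        circ x r ∈ Set.range (eleven a b s t) := by
      intro u x r hu h1 h2
      have hw : p ≠ 1 := hp1.ne'
      rcases hu with rfl | rfl | rfl | rfl
      · rcases neigh (y₁ := b) (y₂ := s) hp0 hw hkp h1 h2 (by rw [hs]; ring) e1 with h | h
        · rw [h]; exact m1
        · rw [h]; exact m7
      · rcases neigh (y₁ := -b) (y₂ := -s) hp0 hw hkp h1 h2 (by rw [hs]; ring)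
          (by linear_combination e1) with h | h
        · rw [h]; exact m2
        · rw [h]; exact m8
      · rcases neigh (y₁ := a) (y₂ := -u) hp0 hw hkp h1 h2 e5 e2 with h | h
        · rw [h, hor2_comm]; exact m1
        · rw [h]; exact m6
      · rcases neigh (y₁ := -a) (y₂ := b) hp0 hw hkp h1 h2 (by linear_combination -e5)
          (by linear_combination e2) with h | h
        · rw [h, hor2_comm]; exact m2
        · rw [h, hor2_comm]; exact m6
    -- a point of the row and `B'`
    have c3 : ∀ u x r : ℝ, (u = a ∨ u = -a ∨ u = b ∨ u = -b) → R u ∈ circ x r → B' ∈ circ x r →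
        circ x r ∈ Set.range (eleven a b s t) := by
      intro u x r hu h1 h2
      have hw : q ≠ 1 := (hp1.trans hpq).ne'
      rcases hu with rfl | rfl | rfl | rfl
      · rcases neigh (y₁ := -b) (y₂ := s) hq0 hw hkq h1 h2 e6 e3 with h | h
        · rw [h]; exact m3
        · rw [h]; exact m7
      · rcases neigh (y₁ := b) (y₂ := -s) hq0 hw hkq h1 h2 (by linear_combination -e6)
          (by linear_combination e3) with h | h
        · rw [h]; exact m4
        · rw [h]; exact m8
      · rcases neigh (y₁ := -a) (y₂ := t) hq0 hw hkq h1 h2 (by rw [ht]; ring) e4 with h | h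
        · rw [h, hor2_comm]; exact m4
        · rw [h]; exact m9
      · rcases neigh (y₁ := a) (y₂ := -t) hq0 hw hkq h1 h2 (by rw [ht]; ring)
          (by linear_combination e4) with h | h
        · rw [h, hor2_comm]; exact m3
        · rw [h]; exact m10
    -- the points `A` and `B'`
    have c4 : ∀ x r : ℝ, A ∈ circ x r → B' ∈ circ x r → circ x r ∈ Set.range (eleven a b s t) := by
      intro x r h1 h2
      rw [mem_circ] at h1 h2
      simp only [hA, hB, pt_re, pt_im] at h1 h2
      have h3 : (p - q) * (2 * r - (p + q)) = 0 := by linear_combination h2 - h1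
      have h4 := (mul_eq_zero.1 h3).resolve_left (sub_ne_zero.2 hpq.ne)
      have h5 : x ^ 2 = p * q := by linear_combination h1 + p * h4
      have h6 : ((a + s) / 2) ^ 2 = p * q := by
        rw [hs, hp, hq, ha]
        have h7 : 16 * k * (k + 1) = (4 * k + 3) * b ^ 2 := by
          have h8 : (k - 1) * (16 * k * (k + 1) - (4 * k + 3) * b ^ 2) = 0 := by
            linear_combination 2 * hk - (4 * k + 3) * hb
          have := (mul_eq_zero.1 h8).resolve_left hk0.ne'
          linarith
        linear_combination k * (k + 1) / 4 * b ^ 2 * h7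
      have h9 : r = (1 + ((a - s) / 2) ^ 2) / 2 := by
        have h10 : (p + q) = 1 + ((a - s) / 2) ^ 2 := by
          rw [hs, hp, hq, ha]
          have h11 : 2 + 2 * (1 - 2 * k ^ 2) ^ 2 * b ^ 2 = (2 * k + 1) ^ 2 * b ^ 2 := by
            linear_combination (-1) * hb + b ^ 2 * k * hk
          linear_combination (-1 / 2) * h11
        linarith
      have h12 : (x - (a + s) / 2) * (x + (a + s) / 2) = 0 := by linear_combination h5 - h6
      rcases mul_eq_zero.1 h12 with h | h
      · have hx : x = (a + s) / 2 := by linarith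
        rw [hx, h9]
        exact m7
      · have hx : x = (-a + -s) / 2 := by linarith
        have hr : r = (1 + ((-a - -s) / 2) ^ 2) / 2 := by
          rw [h9]
          ring
        rw [hx, hr]
        exact m8
    have hsub : determined P ⊆ Set.range (eleven a b s t) := by
      rintro H ⟨hH, z, hz, w, hw, hzw, hzH, hwH⟩
      have key : ∀ z ∈ P, (∃ u, (u = a ∨ u = -a ∨ u = b ∨ u = -b) ∧ z = R u) ∨ z = A ∨ z = B' := by
        intro z hz
        rw [hP] at hz
        simp only [mem_insert, mem_singleton] at hz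
        rcases hz with h | h | h | h | h | h
        · exact Or.inl ⟨a, Or.inl rfl, h⟩
        · exact Or.inl ⟨-a, Or.inr (Or.inl rfl), h⟩
        · exact Or.inl ⟨b, Or.inr (Or.inr (Or.inl rfl)), h⟩
        · exact Or.inl ⟨-b, Or.inr (Or.inr (Or.inr rfl)), h⟩
        · exact Or.inr (Or.inl h)
        · exact Or.inr (Or.inr h)
      rcases hH with ⟨c, hc, rfl⟩ | ⟨x, r, hr, rfl⟩
      · rw [mem_hline] at hzH hwH
        have hc1 : c = 1 := by
          rcases key z hz with ⟨u, -, rfl⟩ | rfl | rfl
          · rw [← hzH]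
            rfl
          · rcases key w hw with ⟨v, -, rfl⟩ | rfl | rfl
            · rw [← hwH]
              rfl
            · exact absurd rfl hzw
            · exfalso
              simp only [hA, hB, pt_im] at hzH hwH
              linarith
          · rcases key w hw with ⟨v, -, rfl⟩ | rfl | rfl
            · rw [← hwH]
              rfl
            · exfalso
              simp only [hA, hB, pt_im] at hzH hwH
              linarith
            · exact absurd rfl hzw
        rw [hc1]
        exact m0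
      · rcases key z hz with ⟨u, hu, rfl⟩ | rfl | rfl <;> rcases key w hw with ⟨v, hv, rfl⟩ | rfl | rfl
        · exact c1 u v x r hu hv (fun h => hzw (by rw [h])) hzH hwH
        · exact c2 u x r hu hzH hwH
        · exact c3 u x r hu hzH hwH
        · exact c2 v x r hv hwH hzH
        · exact absurd rfl hzw
        · exact c4 x r hzH hwH
        · exact c3 v x r hv hwH hzH
        · exact c4 x r hwH hzH
        · exact absurd rfl hzw
    have hfin : (Set.range (eleven a b s t)).Finite := Set.finite_range _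
    unfold h
    refine (Set.ncard_le_ncard hsub hfin).trans ?_
    rw [← Set.image_univ]
    refine (Set.ncard_image_le (Set.toFinite _)).trans ?_
    rw [Set.ncard_univ, Nat.card_eq_fintype_card, Fintype.card_fin]

end Pool.Agent.HoroS
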